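import Pool.Agent.Y463.CD.Struct

/-!
# Closed braids as diagrams with sites
-/

set_option autoImplicit false

namespace Pool.Agent.Y463.CD

open Finset LaurentPolynomial Module Pool.Agent.H891R2.Jones Pool.Agent.H891R2.MT Pool.Agent.H891R2.SI T4b

variable {k m : ℕ}

theorem braid_pieces (i : Fin k → ℕ) (hi : ∀ j, i j + 1 < m) : 
    m ≤ pieces (flat (braidSites m i hi)) := by
  classical
  let f : Fin (k + 1) × Fin m → Fin m := Prod.snd
  have hf : ∀ p q, Adj (flat (braidSites m i hi)) p q → f p = f q := by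
    intro p q h
    rcases h with h | ⟨x, hx, _⟩
    · change (p, q) ∈ (braidSites m i hi).arcs ++ _ at h
      rw [List.mem_append] at h
      rcases h with h | h
      · rw [List.mem_append] at h
        rcases h with h | h
        · obtain ⟨j, _, he⟩ := List.mem_flatMap.1 h
          obtain ⟨x, _, hx⟩ := List.mem_map.1 he
          rw [Prod.mk.injEq] at hx
          rw [← hx.1, ← hx.2]
        · obtain ⟨x, _, hx⟩ := List.mem_map.1 h
          rw [Prod.mk.injEq] at hx
          rw [← hx.1, ← hx.2]
      · obtain ⟨j, _, he⟩ := List.mem_flatMap.1 h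
        rw [if_pos (Finset.mem_univ j)] at he
        simp only [List.mem_cons, List.not_mem_nil, or_false, Prod.mk.injEq] at he
        rcases he with ⟨rfl, rfl⟩ | ⟨rfl, rfl⟩
        · rfl
        · rfl
    · exact absurd hx List.not_mem_nil
  let F : Quot (Adj (flat (braidSites m i hi))) → Fin m := Quot.lift f hf
  have hF : Function.Surjective F := fun x => ⟨Quot.mk _ (0, x), rfl⟩
  have h1 := Nat.card_le_card_of_surjective F hF
  rwa [Nat.card_eq_fintype_card, Fintype.card_fin] at h1

theorem braid_connected (i : Fin k → ℕ) (hi : ∀ j, i j + 1 < m) 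
    (hall : ∀ x, x + 1 < m → ∃ j, i j = x) : (braidSites m i hi).Connected := by
  classical
  intro p q
  set r : (braidSites m i hi).P → (braidSites m i hi).P → Prop := fun p q => 
    (p, q) ∈ (braidSites m i hi).arcs ∨ 
    (∃ x ∈ (braidSites m i hi).crossings, (p = x.1 ∨ p = x.2.1 ∨ p = x.2.2.1 ∨ p = x.2.2.2) ∧
      (q = x.1 ∨ q = x.2.1 ∨ q = x.2.2.1 ∨ q = x.2.2.2)) ∨ 
    (∃ (e : Fin k) (t l t' l' : Bool), p = (braidSites m i hi).corner e t l ∧ 
      q = (braidSites m i hi).corner e t' l') with hr
  have hsite : ∀ (j : Fin k) (t l t' l' : Bool), Relation.EqvGen r 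
      ((braidSites m i hi).corner j t l) ((braidSites m i hi).corner j t' l') := 
    fun j t l t' l' => Relation.EqvGen.rel _ _ (Or.inr (Or.inr ⟨j, t, l, t', l', rfl, rfl⟩))
  have hup : ∀ (j : Fin k) (x : Fin m), Relation.EqvGen r (j.castSucc, x) (j.succ, x) := by
    intro j x
    by_cases h1 : (x : ℕ) = i j
    · have h2 : x = ⟨i j, Nat.lt_of_succ_lt (hi j)⟩ := Fin.ext h1
      rw [h2]
      exact hsite j false true true true
    · by_cases h3 : (x : ℕ) = i j + 1
      · have h2 : x = ⟨i j + 1, hi j⟩ := Fin.ext h3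
        rw [h2]
        exact hsite j false false true false
      · refine Relation.EqvGen.rel _ _ (Or.inl ?_)
        refine List.mem_append_left _ (List.mem_flatMap.2 ⟨j, List.mem_finRange j, ?_⟩)
        refine List.mem_map.2 ⟨x, ?_, rfl⟩
        rw [List.mem_filter]
        exact ⟨List.mem_finRange x, by simp [h1, h3]⟩
  have hcol : ∀ (j : Fin (k + 1)) (x : Fin m), Relation.EqvGen r (j, x) (0, x) := by
    intro j
    induction j using Fin.induction with
    | zero => intro x; exact Relation.EqvGen.refl _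
    | succ j ih => intro x; exact Relation.EqvGen.trans _ _ _ (Relation.EqvGen.symm _ _ (hup j x)) (ih x)
  have hrow : ∀ (n : ℕ) (hn : n < m), Relation.EqvGen r ((0 : Fin (k + 1)), (⟨n, hn⟩ : Fin m)) 
      ((0 : Fin (k + 1)), (⟨0, by omega⟩ : Fin m)) := by
    intro n
    induction n with
    | zero => intro hn; exact Relation.EqvGen.refl _
    | succ n ih =>
      intro hn
      obtain ⟨j, hj⟩ := hall n hn
      subst hj
      have h1 := hsite j false false false true
      exact Relation.EqvGen.trans _ _ _ (Relation.EqvGen.symm _ _ (hcol j.castSucc _)) 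
        (Relation.EqvGen.trans _ _ _ h1 (Relation.EqvGen.trans _ _ _ (hcol j.castSucc _) (ih _)))
  obtain ⟨j, x⟩ := p
  obtain ⟨j', x'⟩ := q
  exact Relation.EqvGen.trans _ _ _ (hcol j x) (Relation.EqvGen.trans _ _ _ (hrow x x.2) 
    (Relation.EqvGen.symm _ _ (Relation.EqvGen.trans _ _ _ (hcol j' x') (hrow x' x'.2))))

end Pool.Agent.Y463.CD
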