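import Pool.Agent.H891R2.SI.All

/-!
# Clusters of exponents

If a sum of terms `± A^{-4 a(i)} p_i` with short `p_i` has short support, then every change of the exponents
`a(i)` which is the same for `i`, `j` with nearly equal `a(i)`, `a(j)` changes the sum by a unit.
-/

set_option autoImplicit false

namespace Pool.Agent.Y463.CD

open Finset LaurentPolynomial Pool.Agent.H891R2.Jones Pool.Agent.H891R2.MT Pool.Agent.H891R2.SI T4b

/-- the unit `(-A^{-4})^n` -/
noncomputable abbrev zf (n : ℤ) : ℤ[T;T⁻¹] := Pool.Agent.H891R2.SI.S3.zf n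

theorem zf_add (m n : ℤ) : zf (m + n) = zf m * zf n := by
  show (-1 : ℤ[T;T⁻¹]) ^ (m + n).natAbs * T (-4 * (m + n)) = 
    ((-1) ^ m.natAbs * T (-4 * m)) * ((-1) ^ n.natAbs * T (-4 * n))
  rw [Pool.Agent.H891R2.SI.S3.neg_one_natAbs, mul_add, T_add]
  ring

theorem zf_zero : zf 0 = 1 := by
  show (-1 : ℤ[T;T⁻¹]) ^ (0 : ℤ).natAbs * T (-4 * 0) = 1
  simp [T_zero]

theorem zf_neg_mul (n : ℤ) : zf (-n) * zf n = 1 := by
  rw [← zf_add, neg_add_cancel, zf_zero]

theorem SIn_zf_mul {p : ℤ[T;T⁻¹]} {b : ℤ} (h : SIn p (-b) b) (n : ℤ) : 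
    SIn (zf n * p) (-4 * n - b) (-4 * n + b) := by
  have h1 := ((SIn_sgn n.natAbs).mul (SIn.T (-4 * n))).mul h
  exact h1.mono (by linarith) (by linarith)

theorem ne_zero_coeff {f : ℤ[T;T⁻¹]} (hf : f ≠ 0) : ∃ j, f.coeff j ≠ 0 :=
  Pool.Agent.H891R2.SI.S6.exists_coeff hf

theorem coeff_add' (f g : ℤ[T;T⁻¹]) (j : ℤ) : (f + g).coeff j = f.coeff j + g.coeff j := by
  rw [AddMonoidAlgebra.coeff_add, Finsupp.add_apply]

/-- the cluster lemma -/
theorem cluster {ι : Type} [DecidableEq ι] (p : ι → ℤ[T;T⁻¹]) (b x L : ℤ) (hp : ∀ i, SIn (p i) (-b) b) 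
    (hx : 0 ≤ x) (hL0 : 0 ≤ L) (hL : 2 * b + L ≤ 2 * x) (a y : ι → ℤ) : ∀ (n : ℕ) (X : Finset ι), X.card ≤ n → 
    ∀ lo : ℤ, SIn (∑ i ∈ X, zf (a i) * p i) lo (lo + L) → 
    (∀ i ∈ X, ∀ j ∈ X, 2 * |a i - a j| ≤ x → y i = y j) → 
    ∃ y0 : ℤ, ∑ i ∈ X, zf (a i + y i) * p i = zf y0 * ∑ i ∈ X, zf (a i) * p i := by
  intro n
  induction n with
  | zero =>
    intro X hX lo _ _
    have : X = ∅ := Finset.card_eq_zero.1 (by omega)
    subst this
    exact ⟨0, by simp⟩
  | succ n ih =>
    intro X hX lo hS hy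
    by_cases hc : ∃ y0, ∀ i ∈ X, y i = y0
    · obtain ⟨y0, hy0⟩ := hc
      refine ⟨y0, ?_⟩
      rw [Finset.mul_sum]
      refine Finset.sum_congr rfl fun i hi => ?_
      rw [hy0 i hi, zf_add]
      ring
    · have hne : X.Nonempty := by
        by_contra h
        rw [Finset.not_nonempty_iff_eq_empty] at h
        subst h
        exact hc ⟨0, by simp⟩
      obtain ⟨i0, hi0, hmin⟩ := X.exists_min_image a hne
      have hc1 : (X.filter (fun i => y i ≠ y i0)).Nonempty := by
        by_contra h
        rw [Finset.not_nonempty_iff_eq_empty, Finset.filter_eq_empty_iff] at h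
        exact hc ⟨y i0, fun i hi => not_not.1 (h hi)⟩
      obtain ⟨j0, hj0, hjmin⟩ := (X.filter (fun i => y i ≠ y i0)).exists_min_image a hc1
      rw [Finset.mem_filter] at hj0
      -- the two parts
      set X1 := X.filter (fun i => a i < a j0) with hX1
      set X2 := X.filter (fun i => ¬ a i < a j0) with hX2
      have hy1 : ∀ i ∈ X1, y i = y i0 := by
        intro i hi
        rw [hX1, Finset.mem_filter] at hi
        by_contra h
        have := hjmin i (Finset.mem_filter.2 ⟨hi.1, h⟩)
        omega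
      have hi01 : i0 ∈ X1 := by
        rw [hX1, Finset.mem_filter]
        refine ⟨hi0, ?_⟩
        by_contra h
        have h1 := hmin j0 hj0.1
        have h2 : a i0 = a j0 := by omega
        apply hj0.2
        refine hy j0 hj0.1 i0 hi0 ?_
        rw [h2, sub_self, abs_zero]
        simpa using hx
      have hj02 : j0 ∈ X2 := by
        rw [hX2, Finset.mem_filter]
        exact ⟨hj0.1, by omega⟩
      -- the gap
      have hgap : ∀ i ∈ X1, x + 1 ≤ 2 * (a j0 - a i) := by
        intro i hi
        have hi' := (Finset.mem_filter.1 hi)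
        by_contra h
        apply hj0.2
        rw [← hy1 i hi]
        refine hy j0 hj0.1 i hi'.1 ?_
        rw [abs_of_pos (by omega)]
        omega
      have hX2' : ∀ i ∈ X2, a j0 ≤ a i := by
        intro i hi
        have := (Finset.mem_filter.1 hi).2
        omega
      have hsum : ∀ f : ι → ℤ[T;T⁻¹], ∑ i ∈ X, f i = ∑ i ∈ X1, f i + ∑ i ∈ X2, f i := fun f => 
        (Finset.sum_filter_add_sum_filter_not X _ f).symm
      set G1 := ∑ i ∈ X1, zf (a i) * p i with hG1
      set G2 := ∑ i ∈ X2, zf (a i) * p i with hG2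
      -- supports
      have s1 : ∀ j, G1.coeff j ≠ 0 → 2 * x + 2 - 4 * a j0 - b ≤ j := by
        have h1 : SIn G1 (2 * x + 2 - 4 * a j0 - b) (-4 * a i0 + b) := by
          refine SIn.sum _ _ fun i hi => (SIn_zf_mul (hp i) (a i)).mono ?_ ?_
          · have := hgap i hi
            linarith
          · have := hmin i (Finset.mem_filter.1 hi).1
            linarith
        exact fun j hj => (h1 j hj).1
      have s2 : ∀ j, G2.coeff j ≠ 0 → j ≤ -4 * a j0 + b := by
        intro j hj
        by_contra hlt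
        apply hj
        have h2 : ∀ i ∈ X2, (zf (a i) * p i).coeff j = 0 := by
          intro i hi
          by_contra h3
          have h4 := (SIn_zf_mul (hp i) (a i) j h3).2
          have h5 := hX2' i hi
          linarith
        rw [hG2, AddMonoidAlgebra.coeff_sum, Finsupp.finsetSum_apply]
        exact Finset.sum_eq_zero h2
      have hc1 : X1.card ≤ n := by
        have h1 : X1.card < X.card := Finset.card_lt_card (Finset.filter_ssubset.2 
          ⟨j0, hj0.1, by simp⟩)
        omega
      have hc2 : X2.card ≤ n := by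
        have h1 : X2.card < X.card := Finset.card_lt_card (Finset.filter_ssubset.2 
          ⟨i0, hi0, by simpa using (Finset.mem_filter.1 hi01).2⟩)
        omega
      have hyy1 : ∀ i ∈ X1, ∀ j ∈ X1, 2 * |a i - a j| ≤ x → y i = y j := fun i hi j hj => 
        hy i (Finset.mem_filter.1 hi).1 j (Finset.mem_filter.1 hj).1
      have hyy2 : ∀ i ∈ X2, ∀ j ∈ X2, 2 * |a i - a j| ≤ x → y i = y j := fun i hi j hj => 
        hy i (Finset.mem_filter.1 hi).1 j (Finset.mem_filter.1 hj).1
      -- one part vanishes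
      have hor : G1 = 0 ∨ G2 = 0 := by
        by_contra hcon
        rw [not_or] at hcon
        obtain ⟨j1, hj1⟩ := ne_zero_coeff hcon.1
        obtain ⟨j2, hj2⟩ := ne_zero_coeff hcon.2
        have a1 := s1 j1 hj1
        have a2 := s2 j2 hj2
        have b1 : (G1 + G2).coeff j1 ≠ 0 := by
          rw [coeff_add']
          have : G2.coeff j1 = 0 := by
            by_contra h
            have := s2 j1 h
            linarith
          rw [this, add_zero]
          exact hj1
        have b2 : (G1 + G2).coeff j2 ≠ 0 := by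
          rw [coeff_add']
          have : G1.coeff j2 = 0 := by
            by_contra h
            have := s1 j2 h
            linarith
          rw [this, zero_add]
          exact hj2
        rw [hsum] at hS
        have c1 := hS j1 b1
        have c2 := hS j2 b2
        linarith [c1.2, c2.1]
      rcases hor with h0 | h0
      · obtain ⟨y1, hy1'⟩ := ih X1 hc1 0 (by rw [← hG1, h0]; exact SIn.zero) hyy1
        obtain ⟨y2, hy2'⟩ := ih X2 hc2 lo (by
          rw [hsum, ← hG1, h0, zero_add] at hS; exact hS) hyy2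
        refine ⟨y2, ?_⟩
        rw [hsum, hsum, hy1', hy2', ← hG1, ← hG2, h0, mul_zero, zero_add, zero_add]
      · obtain ⟨y1, hy1'⟩ := ih X1 hc1 lo (by
          rw [hsum, ← hG2, h0, add_zero] at hS; exact hS) hyy1
        obtain ⟨y2, hy2'⟩ := ih X2 hc2 0 (by rw [← hG2, h0]; exact SIn.zero) hyy2
        refine ⟨y1, ?_⟩
        rw [hsum, hsum, hy1', hy2', ← hG1, ← hG2, h0, mul_zero, add_zero, add_zero]

end Pool.Agent.Y463.CD
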