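import Mathlib

/-!
# Linear algebra over the rational numbers
-/

set_option autoImplicit false

namespace Pool.Agent.Y463.CD

open Finset Module

variable {k : ℕ}

/-- the vectors orthogonal to a set -/
def orth (Rel : Set (Fin k → ℚ)) : Submodule ℚ (Fin k → ℚ) where
  carrier := {y | ∀ ρ ∈ Rel, ∑ e, ρ e * y e = 0}
  add_mem' := by
    intro a b ha hb ρ hρ
    have h1 := ha ρ hρ
    have h2 := hb ρ hρ
    simp only [Pi.add_apply, mul_add, Finset.sum_add_distrib]
    rw [h1, h2, add_zero]
  zero_mem' := by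
    intro ρ _
    simp
  smul_mem' := by
    intro c a ha ρ hρ
    have h1 := ha ρ hρ
    simp only [Pi.smul_apply, smul_eq_mul]
    have : ∀ e, ρ e * (c * a e) = c * (ρ e * a e) := fun e => by ring
    simp only [this]
    rw [← Finset.mul_sum, h1, mul_zero]

theorem mem_orth (Rel : Set (Fin k → ℚ)) (y : Fin k → ℚ) : y ∈ orth Rel ↔ ∀ ρ ∈ Rel, ∑ e, ρ e * y e = 0 := 
  Iff.rfl

/-- coordinates on a subspace -/
theorem exists_coord (Λ : Submodule ℚ (Fin k → ℚ)) : ∃ F : Finset (Fin k), F.card = finrank ℚ Λ ∧ 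
    (∀ v : Fin k → ℚ, ∃ y ∈ Λ, ∀ e ∈ F, y e = v e) ∧ 
    (∀ y ∈ Λ, (∀ e ∈ F, y e = 0) → y = 0) := by
  classical
  obtain ⟨F, hF, hmax⟩ := (Finset.univ.filter (fun F : Finset (Fin k) => 
    ∀ v : Fin k → ℚ, ∃ y ∈ Λ, ∀ e ∈ F, y e = v e)).exists_max_image (fun F => F.card) 
    ⟨∅, Finset.mem_filter.2 ⟨Finset.mem_univ _, fun v => ⟨0, Λ.zero_mem, by simp⟩⟩⟩
  rw [Finset.mem_filter] at hF
  have hsurj := hF.2
  have hinj : ∀ y ∈ Λ, (∀ e ∈ F, y e = 0) → y = 0 := by
    intro y0 hy0 h0
    by_contra hne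
    obtain ⟨e0, he0⟩ : ∃ e0, y0 e0 ≠ 0 := by
      by_contra h
      push Not at h
      exact hne (funext h)
    have he0F : e0 ∉ F := fun h => he0 (h0 e0 h)
    have h1 : insert e0 F ∈ (Finset.univ.filter (fun F : Finset (Fin k) => 
        ∀ v : Fin k → ℚ, ∃ y ∈ Λ, ∀ e ∈ F, y e = v e)) := by
      rw [Finset.mem_filter]
      refine ⟨Finset.mem_univ _, fun v => ?_⟩
      obtain ⟨y, hy, hyv⟩ := hsurj v
      refine ⟨y + ((v e0 - y e0) / y0 e0) • y0, Λ.add_mem hy (Λ.smul_mem _ hy0), ?_⟩
      intro e he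
      rw [Finset.mem_insert] at he
      rcases he with rfl | he
      · simp only [Pi.add_apply, Pi.smul_apply, smul_eq_mul]
        field_simp
        ring
      · simp only [Pi.add_apply, Pi.smul_apply, smul_eq_mul]
        rw [h0 e he, mul_zero, add_zero, hyv e he]
    have h2 := hmax _ h1
    rw [Finset.card_insert_of_notMem he0F] at h2
    omega
  refine ⟨F, ?_, hsurj, hinj⟩
  let f : Λ →ₗ[ℚ] (F → ℚ) := 
    { toFun := fun y e => (y : Fin k → ℚ) e
      map_add' := by intro a b; rfl
      map_smul' := by intro c a; rfl }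
  have hf1 : Function.Injective f := by
    rw [← LinearMap.ker_eq_bot, LinearMap.ker_eq_bot']
    intro y hy
    have := hinj y y.2 (fun e he => congrFun hy ⟨e, he⟩)
    exact Subtype.ext this
  have hf2 : Function.Surjective f := by
    intro v
    obtain ⟨y, hy, hyv⟩ := hsurj (fun e => if h : e ∈ F then v ⟨e, h⟩ else 0)
    refine ⟨⟨y, hy⟩, ?_⟩
    funext e
    have := hyv e e.2
    rw [dif_pos e.2] at this
    exact this
  have h3 := (LinearEquiv.ofBijective f ⟨hf1, hf2⟩).finrank_eq
  rw [h3, Module.finrank_fintype_fun_eq_card, Fintype.card_coe]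

/-- a small orthogonal complement gives many independent vectors -/
theorem exists_indep (Rel : Set (Fin k → ℚ)) (n : ℕ) (h : finrank ℚ (orth Rel) + n ≤ k) : 
    ∃ f : Fin n → (Fin k → ℚ), LinearIndependent ℚ f ∧ ∀ i, f i ∈ Rel := by
  classical
  obtain ⟨b, hb, hspan, hind⟩ := exists_linearIndependent ℚ Rel
  have hfin : Finite b := hind.finite
  have := Fintype.ofFinite b
  let M : (Fin k → ℚ) →ₗ[ℚ] (b → ℚ) := 
    { toFun := fun y ρ => ∑ e, (ρ : Fin k → ℚ) e * y e
      map_add' := by
        intro x y; funext ρ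
        simp only [Pi.add_apply, mul_add, Finset.sum_add_distrib]
      map_smul' := by
        intro c x; funext ρ
        simp only [Pi.smul_apply, smul_eq_mul, RingHom.id_apply, Finset.mul_sum]
        exact Finset.sum_congr rfl fun e _ => by ring }
  have hker : LinearMap.ker M ≤ orth Rel := by
    intro y hy ρ hρ
    rw [LinearMap.mem_ker] at hy
    have h1 : ρ ∈ Submodule.span ℚ b := by rw [hspan]; exact Submodule.subset_span hρ
    clear hρ
    induction h1 using Submodule.span_induction with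
    | mem x hx => exact congrFun hy ⟨x, hx⟩
    | zero => simp
    | add x z _ _ hx hz => 
      simp only [Pi.add_apply, add_mul, Finset.sum_add_distrib, hx, hz, add_zero]
    | smul c x _ hx =>
      simp only [Pi.smul_apply, smul_eq_mul, mul_assoc]
      rw [← Finset.mul_sum, hx, mul_zero]
  have h1 := LinearMap.finrank_range_add_finrank_ker M
  have h2 : finrank ℚ (LinearMap.range M) ≤ Fintype.card b := by
    have := Submodule.finrank_le (LinearMap.range M)
    rwa [Module.finrank_fintype_fun_eq_card] at this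
  have h3 : finrank ℚ (LinearMap.ker M) ≤ finrank ℚ (orth Rel) := Submodule.finrank_mono hker
  rw [Module.finrank_fintype_fun_eq_card, Fintype.card_fin] at h1
  have h4 : n ≤ Fintype.card b := by omega
  have h5 : Nonempty (Fin n ↪ b) := by
    rw [Function.Embedding.nonempty_iff_card_le, Fintype.card_fin]
    exact h4
  obtain ⟨g⟩ := h5
  exact ⟨fun i => (g i : Fin k → ℚ), hind.comp g g.injective, fun i => hb (g i).2⟩

/-- the dimension of the orthogonal complement of independent vectors -/
theorem finrank_orth (n : ℕ) (f : Fin n → (Fin k → ℚ)) (hf : LinearIndependent ℚ f) : 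
    finrank ℚ (orth (Set.range f)) + n = k := by
  classical
  let M : Matrix (Fin n) (Fin k) ℚ := Matrix.of f
  have h1 : M.rank = n := by
    have := LinearIndependent.rank_matrix (M := M) hf
    rwa [Fintype.card_fin] at this
  have h2 : orth (Set.range f) = LinearMap.ker M.mulVecLin := by
    ext y
    rw [mem_orth, LinearMap.mem_ker]
    constructor
    · intro h
      funext i
      exact h (f i) ⟨i, rfl⟩
    · rintro h _ ⟨i, rfl⟩
      exact congrFun h i
  have h3 := LinearMap.finrank_range_add_finrank_ker M.mulVecLin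
  rw [Module.finrank_fintype_fun_eq_card, Fintype.card_fin, ← h2] at h3
  have h4 : finrank ℚ (LinearMap.range M.mulVecLin) = n := h1
  omega

/-- common denominators -/
theorem exists_den (y : Fin k → ℚ) : ∃ (N : ℕ) (z : Fin k → ℤ), 0 < N ∧ ∀ e, (N : ℚ) * y e = z e := by
  refine ⟨∏ e, (y e).den, fun e => (∏ e' ∈ Finset.univ.erase e, ((y e').den : ℤ)) * (y e).num, ?_, ?_⟩
  · exact Finset.prod_pos fun e _ => (y e).den_pos
  · intro e
    rw [← Finset.mul_prod_erase _ _ (Finset.mem_univ e)]
    push_cast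
    have h1 : ((y e).den : ℚ) * y e = (y e).num := by
      rw [mul_comm]; exact Rat.mul_den_eq_num _
    calc ((y e).den : ℚ) * (∏ x ∈ Finset.univ.erase e, ((y x).den : ℚ)) * y e = 
        (∏ x ∈ Finset.univ.erase e, ((y x).den : ℚ)) * (((y e).den : ℚ) * y e) := by ring
      _ = _ := by rw [h1]

/-- a polynomial with large monomials which is constant on a large subspace -/
theorem vanish (c : Finset (Fin k) → ℂ) (n : ℕ) (hc : ∀ R : Finset (Fin k), R.card < n → c R = 0) 
    (Λ : Submodule ℚ (Fin k → ℚ)) (hΛ : k < finrank ℚ Λ + n) (v : Fin k → ℤ) 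
    (h : ∀ y : Fin k → ℤ, (fun e => (y e : ℚ)) ∈ Λ → 
      ∑ R : Finset (Fin k), c R * ∏ e ∈ R, ((v e : ℂ) + y e) = 
        ∑ R : Finset (Fin k), c R * ∏ e ∈ R, (v e : ℂ)) : 
    ∑ R : Finset (Fin k), c R * ∏ e ∈ R, (v e : ℂ) = 0 := by
  classical
  obtain ⟨F, hF, hsurj, -⟩ := exists_coord Λ
  obtain ⟨y, hy, hyv⟩ := hsurj (fun e => - (v e : ℚ))
  obtain ⟨N, z, hN, hz⟩ := exists_den y
  -- the polynomial
  set p : Polynomial ℂ := ∑ R : Finset (Fin k), Polynomial.C (c R) * 
    ∏ e ∈ R, (Polynomial.C (v e : ℂ) + Polynomial.X * Polynomial.C (z e : ℂ)) with hp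
  have hev : ∀ x : ℂ, p.eval x = ∑ R : Finset (Fin k), c R * ∏ e ∈ R, ((v e : ℂ) + x * z e) := by
    intro x
    rw [hp, Polynomial.eval_finset_sum]
    refine Finset.sum_congr rfl fun R _ => ?_
    rw [Polynomial.eval_mul, Polynomial.eval_C, Polynomial.eval_prod]
    congr 1
    refine Finset.prod_congr rfl fun e _ => ?_
    simp
  have hconst : p = Polynomial.C (∑ R : Finset (Fin k), c R * ∏ e ∈ R, (v e : ℂ)) := by
    apply Polynomial.eq_of_infinite_eval_eq
    have hinf : (Set.range (fun n : ℤ => (n : ℂ))).Infinite := 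
      Set.infinite_range_of_injective Int.cast_injective
    refine hinf.mono ?_
    rintro _ ⟨n, rfl⟩
    show p.eval (n : ℂ) = _
    rw [hev, Polynomial.eval_C, ← h (fun e => n * z e) ?_]
    · refine Finset.sum_congr rfl fun R _ => ?_
      congr 1
      refine Finset.prod_congr rfl fun e _ => ?_
      push_cast
      ring
    · have e1 : (fun e => ((n * z e : ℤ) : ℚ)) = ((n : ℚ) * N) • y := by
        funext e
        simp only [Pi.smul_apply, smul_eq_mul]
        push_cast
        rw [mul_assoc, hz]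
      rw [e1]
      exact Λ.smul_mem _ hy
  have hNc : (N : ℂ) ≠ 0 := by exact_mod_cast hN.ne'
  have h1 : p.eval ((N : ℂ)⁻¹) = 0 := by
    rw [hev]
    refine Finset.sum_eq_zero fun R _ => ?_
    by_cases hR : R.card < n
    · rw [hc R hR, zero_mul]
    · have h2 : ∃ e ∈ R, e ∈ F := by
        by_contra hcon
        push Not at hcon
        have h3 : Disjoint R F := Finset.disjoint_left.2 hcon
        have h4 := Finset.card_union_of_disjoint h3
        have h5 := Finset.card_le_univ (R ∪ F)
        rw [Fintype.card_fin] at h5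
        omega
      obtain ⟨e, heR, heF⟩ := h2
      have h3 : (v e : ℂ) + (N : ℂ)⁻¹ * z e = 0 := by
        have h4 : (N : ℚ) * (-(v e : ℚ)) = z e := by rw [← hyv e heF]; exact hz e
        have h5 : (N : ℂ) * (-(v e : ℂ)) = z e := by exact_mod_cast h4
        rw [← h5]
        field_simp
        ring
      rw [Finset.prod_eq_zero heR h3, mul_zero]
  rw [hconst, Polynomial.eval_C] at h1
  exact h1

end Pool.Agent.Y463.CD
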