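import Pool.Agent.Y463.CD.Poly
import Pool.Agent.Y463.CD.Lin

/-!
# The codimension of the set of exceptional members of a twist family
-/

set_option autoImplicit false

namespace Pool.Agent.Y463.CD

open Finset LaurentPolynomial Module Pool.Agent.H891R2.Jones Pool.Agent.H891R2.MT Pool.Agent.H891R2.SI T4b
open Pool.Agent.H891R2.ZO (IsPow)
open Pool.Agent.H832R3.TW (FSpanLE)

variable {k : ℕ}

theorem rv_sum (S S' : Finset (Fin k)) (y : Fin k → ℤ) : 
    ∑ e, rv S S' e * (y e : ℚ) = (nS y S - nS y S' : ℤ) := by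
  classical
  unfold rv nS
  push_cast
  simp only [sub_mul, ite_mul, one_mul, zero_mul, Finset.sum_sub_distrib]
  rw [Finset.sum_ite_mem, Finset.sum_ite_mem, Finset.univ_inter, Finset.univ_inter]

/-- the relations of `w` -/
def RelS (O : Sites k) (s : ℕ) (w : Fin k → ℤ) : Set (Fin k → ℚ) := 
  {ρ | ∃ S S' : Finset (Fin k), Close O s w S S' ∧ ρ = rv S S'}

theorem orth_iff (O : Sites k) (s : ℕ) (w y : Fin k → ℤ) : 
    (fun e => (y e : ℚ)) ∈ orth (RelS O s w) ↔ 
      ∀ S S' : Finset (Fin k), Close O s w S S' → nS y S = nS y S' := by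
  constructor
  · intro h S S' hc
    have h1 := h (rv S S') ⟨S, S', hc, rfl⟩
    rw [rv_sum] at h1
    have h2 : nS y S - nS y S' = 0 := by exact_mod_cast h1
    omega
  · rintro h ρ ⟨S, S', hc, rfl⟩
    rw [rv_sum, h S S' hc, sub_self]
    simp

/-- the coefficients of the determinant polynomial at `q` -/
noncomputable def cq (O : Sites k) (q : Fin k → ℤ) (R : Finset (Fin k)) : ℂ := 
  ∑ R' : Finset (Fin k), if R ⊆ R' then cf O R' * ∏ e ∈ R' \ R, (q e : ℂ) else 0

theorem dP_shift (O : Sites k) (q : Fin k → ℤ) (x : Fin k → ℂ) : 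
    dP O (fun e => (q e : ℂ) + x e) = ∑ R : Finset (Fin k), cq O q R * ∏ e ∈ R, x e := by
  classical
  unfold dP cq
  have h1 : ∀ R' : Finset (Fin k), cf O R' * ∏ e ∈ R', ((q e : ℂ) + x e) = 
      ∑ R : Finset (Fin k), if R ⊆ R' then cf O R' * (∏ e ∈ R' \ R, (q e : ℂ)) * ∏ e ∈ R, x e else 0 := by
    intro R'
    have h2 : ∏ e ∈ R', ((q e : ℂ) + x e) = ∏ e ∈ R', (x e + (q e : ℂ)) := 
      Finset.prod_congr rfl fun e _ => add_comm _ _
    rw [h2, Finset.prod_add, Finset.mul_sum, ← Finset.sum_filter]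
    have h3 : (Finset.univ.filter (fun R : Finset (Fin k) => R ⊆ R')) = R'.powerset := by
      ext R
      simp
    rw [h3]
    refine Finset.sum_congr rfl fun R _ => ?_
    ring
  rw [Finset.sum_congr rfl fun R' _ => h1 R', Finset.sum_comm]
  refine Finset.sum_congr rfl fun R _ => ?_
  rw [Finset.sum_mul]
  refine Finset.sum_congr rfl fun R' _ => ?_
  split_ifs
  · rfl
  · rw [zero_mul]

/-- low coefficients vanish if the determinants near `q` vanish -/
theorem cq_zero (O : Sites k) (hk : 0 < k) (q : Fin k → ℤ) (n : ℕ) 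
    (hq : ∀ R : Finset (Fin k), R.card < n → det (O.fill (q + one R)) = 0) : 
    ∀ (m : ℕ) (R : Finset (Fin k)), R.card = m → R.card < n → cq O q R = 0 := by
  classical
  intro m
  induction m using Nat.strong_induction_on with
  | _ m ih =>
    intro R hRm hRn
    have h1 := hq R hRn
    rw [det_eq O hk, norm_eq_zero] at h1
    have h2 : (fun e => (((q + one R) e : ℤ) : ℂ)) = fun e => (q e : ℂ) + ((one R e : ℤ) : ℂ) := by
      funext e
      simp only [Pi.add_apply]
      push_cast
      ring
    rw [h2, dP_shift, Finset.sum_eq_single R] at h1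
    · have h3 : ∏ e ∈ R, ((one R e : ℤ) : ℂ) = 1 := by
        refine Finset.prod_eq_one fun e he => ?_
        unfold one
        rw [if_pos he]
        simp
      rwa [h3, mul_one] at h1
    · intro R' _ hne
      by_cases hsub : R' ⊆ R
      · have h4 : R'.card < R.card := Finset.card_lt_card (Finset.ssubset_iff_subset_ne.2 ⟨hsub, hne⟩)
        rw [ih R'.card (by omega) R' rfl (by omega), zero_mul]
      · obtain ⟨e, he, heR⟩ := Finset.not_subset.1 hsub
        rw [Finset.prod_eq_zero he, mul_zero]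
        unfold one
        rw [if_neg heR]
        simp
    · intro h
      exact absurd (Finset.mem_univ _) h

/-- **the codimension theorem** for the brackets -/
theorem codim (O : Sites k) (hk : 0 < k) (hO : O.Connected) (s n : ℕ) (q : Fin k → ℤ) 
    (hq : ∀ R : Finset (Fin k), R.card < n → det (O.fill (q + one R)) = 0) (w : Fin k → ℤ) (lo : ℤ)
    (h : SIn (O.fill w).std.bracket lo (lo + 4 * s)) (hdet : det (O.fill w) ≠ 0) :
    ∃ S S' : Fin n → Finset (Fin k), LinearIndependent ℚ (fun i => rv (S i) (S' i)) ∧ 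
      ∀ i, Close O s w (S i) (S' i) := by
  by_cases hc : finrank ℚ (orth (RelS O s w)) + n ≤ k
  · obtain ⟨f, hf, hfm⟩ := exists_indep _ n hc
    choose S S' h1 h2 using hfm
    refine ⟨S, S', ?_, h1⟩
    have : (fun i => rv (S i) (S' i)) = f := funext fun i => (h2 i).symm
    rw [this]
    exact hf
  · exfalso
    rw [det_ne_iff O hk] at hdet
    apply hdet
    have key : ∀ y : Fin k → ℤ, (fun e => (y e : ℚ)) ∈ orth (RelS O s w) → 
        dP O (fun e => ((w + y) e : ℂ)) = dP O (fun e => (w e : ℂ)) := by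
      intro y hy
      rw [orth_iff] at hy
      obtain ⟨y0, h0⟩ := rigid O hk hO s w y lo h hy
      have h1 := congrArg ev8 h0
      rw [ev8_expand O hk (w + y), map_mul, ev8_zf, one_mul, ev8_expand O hk w] at h1
      convert h1 using 2
    have e0 : ∀ y : Fin k → ℤ, dP O (fun e => ((w + y) e : ℂ)) = 
        ∑ R : Finset (Fin k), cq O q R * ∏ e ∈ R, (((w - q) e : ℤ) + (y e : ℂ)) := by
      intro y
      rw [← dP_shift]
      congr 1
      funext e
      simp only [Pi.add_apply, Pi.sub_apply]
      push_cast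
      ring
    have e1 : dP O (fun e => (w e : ℂ)) = 
        ∑ R : Finset (Fin k), cq O q R * ∏ e ∈ R, (((w - q) e : ℤ) : ℂ) := by
      rw [← dP_shift]
      congr 1
      funext e
      simp only [Pi.sub_apply]
      push_cast
      ring
    rw [e1]
    refine vanish (cq O q) n (fun R hR => cq_zero O hk q n hq _ R rfl hR) 
      (orth (RelS O s w)) (by omega) (w - q) ?_
    intro y hy
    rw [← e0, ← e1]
    exact key y hy

end Pool.Agent.Y463.CD
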