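import Pool.Agent.Y463.CD.Codim

/-!
# Counting vectors with many small sums
-/

set_option autoImplicit false

namespace Pool.Agent.Y463.CD

open Finset Module Pool.Agent.H891R2.MT

variable {k : ℕ}

/-- the integral vector `1_S - 1_{S'}` -/
noncomputable def rz (S S' : Finset (Fin k)) : Fin k → ℤ := fun e => one S e - one S' e

theorem rz_cast (S S' : Finset (Fin k)) : (fun e => (rz S S' e : ℚ)) = rv S S' := by
  classical
  funext e
  unfold rz rv one
  push_cast
  rfl

theorem rz_sum (S S' : Finset (Fin k)) (w : Fin k → ℤ) : ∑ e, rz S S' e * w e = nS w S - nS w S' := by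
  have h := rv_sum S S' w
  rw [← rz_cast] at h
  simp only at h
  exact_mod_cast h

theorem count_rel (n : ℕ) (ρ : Fin n → Fin k → ℤ) (hρ : LinearIndependent ℚ (fun i e => (ρ i e : ℚ))) 
    (b : Fin n → ℤ) (A : Fin k → Finset ℤ) (M : ℕ) (hM : ∀ e, M ≤ (A e).card) : 
    M ^ n * #{w ∈ Fintype.piFinset A | ∀ i, ∑ e, ρ i e * w e = b i} ≤ ∏ e, (A e).card := by
  classical
  have hd := finrank_orth n _ hρ
  obtain ⟨F, hF, -, hinj⟩ := exists_coord (orth (Set.range (fun i e => (ρ i e : ℚ))))
  have h1 : #{w ∈ Fintype.piFinset A | ∀ i, ∑ e, ρ i e * w e = b i} ≤ ∏ e ∈ F, (A e).card := by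
    have h2 : (Fintype.piFinset (fun e : F => A e)).card = ∏ e ∈ F, (A e).card := by
      rw [Fintype.card_piFinset, ← Finset.prod_coe_sort F (fun e => (A e).card)]
    rw [← h2]
    refine Finset.card_le_card_of_injOn (fun w (e : F) => w e) ?_ ?_
    · intro w hw
      rw [Finset.mem_coe, Finset.mem_filter, Fintype.mem_piFinset] at hw
      rw [Finset.mem_coe, Fintype.mem_piFinset]
      exact fun e => hw.1 e
    · intro w hw w' hw' heq
      rw [Finset.mem_coe, Finset.mem_filter] at hw hw'
      have h3 := hinj (fun e => ((w - w') e : ℚ)) (by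
        rintro _ ⟨i, rfl⟩
        have h4 : ∑ e, ρ i e * (w - w') e = 0 := by
          simp only [Pi.sub_apply, mul_sub, Finset.sum_sub_distrib]
          rw [hw.2 i, hw'.2 i, sub_self]
        simp only
        exact_mod_cast h4) (by
        intro e he
        have h5 := congrFun heq ⟨e, he⟩
        simp only at h5
        simp only [Pi.sub_apply]
        rw [h5]
        simp)
      funext e
      have h6 := congrFun h3 e
      simp only [Pi.zero_apply, Pi.sub_apply] at h6
      have h7 : w e - w' e = 0 := by exact_mod_cast h6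
      omega
  have h2 : M ^ n ≤ ∏ e ∈ Fᶜ, (A e).card := by
    have h3 : Fᶜ.card = n := by
      rw [Finset.card_compl, Fintype.card_fin]
      omega
    rw [← h3, ← Finset.prod_const]
    exact Finset.prod_le_prod' fun e _ => hM e
  calc M ^ n * #{w ∈ Fintype.piFinset A | ∀ i, ∑ e, ρ i e * w e = b i} ≤ 
      (∏ e ∈ Fᶜ, (A e).card) * ∏ e ∈ F, (A e).card := Nat.mul_le_mul h2 h1
    _ = _ := by rw [mul_comm]; exact Finset.prod_mul_prod_compl F _

open Classical in
theorem count_many (X n : ℕ) (A : Fin k → Finset ℤ) (M : ℕ) (hM : ∀ e, M ≤ (A e).card) : 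
    M ^ n * #{w ∈ Fintype.piFinset A | Many X n w} ≤ (3 ^ k * (X + 1)) ^ n * ∏ e, (A e).card := by
  set V : Finset (Fin k → ℤ) := Fintype.piFinset (fun _ => ({-1, 0, 1} : Finset ℤ)) with hV
  have hVc : V.card = 3 ^ k := by
    rw [hV, Fintype.card_piFinset]
    simp
  set Bd : Finset ℤ := Finset.Icc (-((X / 2 : ℕ) : ℤ)) ((X / 2 : ℕ) : ℤ) with hBd
  have hBc : Bd.card ≤ X + 1 := by
    rw [hBd, Int.card_Icc]
    omega
  set I : Finset (Fin n → (Fin k → ℤ) × ℤ) := Fintype.piFinset (fun _ => V ×ˢ Bd) with hI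
  have hIc : I.card ≤ (3 ^ k * (X + 1)) ^ n := by
    rw [hI, Fintype.card_piFinset, Finset.prod_const, Finset.card_univ, Fintype.card_fin, 
      Finset.card_product, hVc]
    exact Nat.pow_le_pow_left (Nat.mul_le_mul_left _ hBc) _
  have hsub : ({w ∈ Fintype.piFinset A | Many X n w}) ⊆ 
      (I.filter (fun f => LinearIndependent ℚ (fun i e => ((f i).1 e : ℚ)))).biUnion 
        (fun f => {w ∈ Fintype.piFinset A | ∀ i, ∑ e, (f i).1 e * w e = (f i).2}) := by
    intro w hw
    rw [Finset.mem_filter] at hw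
    obtain ⟨hwA, S, S', hli, hS⟩ := hw
    rw [Finset.mem_biUnion]
    refine ⟨fun i => (rz (S i) (S' i), nS w (S i) - nS w (S' i)), ?_, ?_⟩
    · rw [Finset.mem_filter, hI, Fintype.mem_piFinset]
      refine ⟨?_, ?_⟩
      · intro i
        rw [Finset.mem_product]
        constructor
        · rw [hV, Fintype.mem_piFinset]
          intro e
          show rz (S i) (S' i) e ∈ _
          unfold rz one
          by_cases h1 : e ∈ S i <;> by_cases h2 : e ∈ S' i <;> simp [h1, h2]
        · rw [hBd, Finset.mem_Icc]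
          have h3 := hS i
          have h4 := abs_le.1 (show |nS w (S i) - nS w (S' i)| ≤ ((X / 2 : ℕ) : ℤ) by omega)
          exact h4
      · have : (fun i e => (((rz (S i) (S' i), nS w (S i) - nS w (S' i)) : (Fin k → ℤ) × ℤ).1 e : ℚ)) = 
            fun i => rv (S i) (S' i) := funext fun i => rz_cast (S i) (S' i)
        rw [this]
        exact hli
    · rw [Finset.mem_filter]
      exact ⟨hwA, fun i => rz_sum (S i) (S' i) w⟩
  have h1 := Nat.mul_le_mul_left (M ^ n) ((Finset.card_le_card hsub).trans Finset.card_biUnion_le)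
  refine h1.trans ?_
  rw [Finset.mul_sum]
  have h2 : ∀ f ∈ I.filter (fun f => LinearIndependent ℚ (fun i e => ((f i).1 e : ℚ))), 
      M ^ n * #{w ∈ Fintype.piFinset A | ∀ i, ∑ e, (f i).1 e * w e = (f i).2} ≤ ∏ e, (A e).card := by
    intro f hf
    exact count_rel n (fun i => (f i).1) (Finset.mem_filter.1 hf).2 (fun i => (f i).2) A M hM
  refine (Finset.sum_le_card_nsmul _ _ _ h2).trans ?_
  rw [smul_eq_mul]
  exact Nat.mul_le_mul_right _ ((Finset.card_filter_le _ _).trans hIc)

/-- the version for cubes -/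
theorem count_cube (X n N : ℕ) : 
    {w : Fin k → ℤ | (∀ e, |w e| ≤ N) ∧ Many X n w}.ncard ≤ 
      (3 ^ k * (X + 1)) ^ n * (2 * N + 1) ^ (k - n) := by
  classical
  have h := count_many (k := k) X n (fun _ => Finset.Icc (-(N : ℤ)) N) (2 * N + 1) (fun e => by
    rw [Int.card_Icc]
    omega)
  have hc : ∏ e : Fin k, (Finset.Icc (-(N : ℤ)) N).card = (2 * N + 1) ^ k := by
    rw [Finset.prod_const, Finset.card_univ, Fintype.card_fin, Int.card_Icc]
    congr 1
    omega
  rw [hc] at h
  have hset : {w : Fin k → ℤ | (∀ e, |w e| ≤ N) ∧ Many X n w} =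
      (({w ∈ Fintype.piFinset (fun _ : Fin k => Finset.Icc (-(N : ℤ)) N) | Many X n w} :
        Finset (Fin k → ℤ)) : Set (Fin k → ℤ)) := by
    ext w
    simp only [Set.mem_ofPred_eq, Finset.coe_filter, Fintype.mem_piFinset, Finset.mem_Icc, abs_le]
  rw [hset, Set.ncard_coe_finset]
  by_cases hn : n ≤ k
  · have hpow : (2 * N + 1) ^ k = (2 * N + 1) ^ n * (2 * N + 1) ^ (k - n) := by
      rw [← pow_add]
      congr 1
      omega
    rw [hpow] at h
    have hpos : 0 < (2 * N + 1) ^ n := by positivity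
    refine Nat.le_of_mul_le_mul_left ?_ hpos
    calc _ ≤ _ := h
      _ = _ := by ring
  · have h0 : ({w ∈ Fintype.piFinset (fun _ : Fin k => Finset.Icc (-(N : ℤ)) N) | Many X n w}) = ∅ := by
      apply Finset.filter_false_of_mem
      rintro w _ ⟨S, S', hli, _⟩
      have h1 := hli.fintype_card_le_finrank
      rw [Module.finrank_fintype_fun_eq_card, Fintype.card_fin, Fintype.card_fin] at h1
      exact hn h1
    rw [h0]
    simp

end Pool.Agent.Y463.CD
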