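import Pool.Agent.H891R2.SI.Defs
import Pool.Agent.H832R3.TW.E

/-!
# Definitions for the codimension theorem
-/

set_option autoImplicit false

namespace Pool.Agent.Y463.CD

open Finset Pool.Agent.H891R2.Jones Pool.Agent.H891R2.MT Pool.Agent.H891R2.SI
open Pool.Agent.H832R3.TW (FSpanLE)

variable {k : ℕ}

/-- the bound `2 |w(S) - w(S')| ≤ 3 c + 6 k + 2 s`, where `c` is the number of crossings of `O` -/
def Close (O : Sites k) (s : ℕ) (w : Fin k → ℤ) (S S' : Finset (Fin k)) : Prop :=
  2 * |nS w S - nS w S'| ≤ 3 * O.crossings.length + 6 * k + 2 * s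

/-- for some directions (hence for all) the Jones polynomial of `O.fill w` has span at most `s` -/
def Small (O : Sites k) (s : ℕ) (w : Fin k → ℤ) : Prop :=
  ∃ D : Diagram (O.P ⊕ Ribbon.Pt w), Orients D (O.fill w) ∧ FSpanLE s D

/-- the coset of `w`: the vectors `w'` with `w'(S) - w'(S') = w(S) - w(S')` whenever 
`2 |w(S) - w(S')| ≤ 3 c + 6 k + 2 s` -/
def Coset (O : Sites k) (s : ℕ) (w : Fin k → ℤ) : Set (Fin k → ℤ) :=
  {w' | ∀ S S' : Finset (Fin k), Close O s w S S' → nS w' S - nS w' S' = nS w S - nS w S'}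

open Classical in
/-- the vector `1_S - 1_{S'}` -/
noncomputable def rv (S S' : Finset (Fin k)) : Fin k → ℚ := 
  fun e => (if e ∈ S then 1 else 0) - (if e ∈ S' then 1 else 0)

open Classical in
/-- the vector `1_R` -/
noncomputable def one (R : Finset (Fin k)) : Fin k → ℤ := fun e => if e ∈ R then 1 else 0

/-- `w` satisfies `n` linearly independent relations `2 |w(S) - w(S')| ≤ X` -/
def Many (X n : ℕ) (w : Fin k → ℤ) : Prop :=
  ∃ S S' : Fin n → Finset (Fin k), LinearIndependent ℚ (fun i => rv (S i) (S' i)) ∧ 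
      ∀ i, 2 * |nS w (S i) - nS w (S' i)| ≤ X

/-- two marked points belong to the same arc or to the same crossing -/
def Adj {P : Type} (U : UDiagram P) (p q : P) : Prop :=
  (p, q) ∈ U.arcs ∨ ∃ x ∈ U.crossings, (p = x.1 ∨ p = x.2.1 ∨ p = x.2.2.1 ∨ p = x.2.2.2) ∧
      (q = x.1 ∨ q = x.2.1 ∨ q = x.2.2.1 ∨ q = x.2.2.2)

/-- the number of connected pieces of a diagram -/
noncomputable def pieces {P : Type} (U : UDiagram P) : ℕ := Nat.card (Quot (Adj U))

/-- the diagram in which every site is filled with two vertical strands without crossings -/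
def flat (O : Sites k) : UDiagram O.P := O.state Finset.univ

/-- The closure of the braid `σ_{i 0} ^ {w 0} σ_{i 1} ^ {w 1} ⋯` with `m` strands as a diagram with `k`
sites: marked points `(j, x)` on the strand at the place `x` at the level `j = 0, …, k`; the site `j`
lies between the levels `j` and `j + 1` at the places `i j` and `i j + 1`; the other strands run
upwards, and the level `k` is joined with the level `0`. -/
abbrev braidSites (m : ℕ) (i : Fin k → ℕ) (hi : ∀ j, i j + 1 < m) : Sites k where
  P := Fin (k + 1) × Fin m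
  arcs := (List.finRange k).flatMap (fun j => 
    ((List.finRange m).filter (fun x : Fin m => (x : ℕ) ≠ i j ∧ (x : ℕ) ≠ i j + 1)).map 
      (fun x => ((j.castSucc, x), (j.succ, x)))) ++ 
    (List.finRange m).map (fun x => ((Fin.last k, x), (0, x)))
  crossings := []
  corner := fun j t l => (if t then j.succ else j.castSucc, 
    if l then ⟨i j, Nat.lt_of_succ_lt (hi j)⟩ else ⟨i j + 1, hi j⟩)

end Pool.Agent.Y463.CD
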