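import Pool.Agent.Y463.CD.Graph
import Pool.Agent.Y463.CD.Braid

/-!
# Final form of the codimension theorem
-/

set_option autoImplicit false

namespace Pool.Agent.Y463.CD

open Finset LaurentPolynomial Module Pool.Agent.H891R2.Jones Pool.Agent.H891R2.MT Pool.Agent.H891R2.SI T4b
open Pool.Agent.H891R2.ZO (IsPow)
open Pool.Agent.H832R3.TW (FSpanLE)

variable {k : ℕ}

theorem det_of_unit (O : Sites k) (hk : 0 < k) (w : Fin k → ℤ) (D : Diagram (O.P ⊕ Ribbon.Pt w)) 
    (hD : Orients D (O.fill w)) (hf : D.fPoly = 1) : Small O 0 w ∧ det (O.fill w) ≠ 0 := by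
  have n1 : Nonempty (O.P ⊕ Ribbon.Pt w) := ⟨.inl (O.corner ⟨0, hk⟩ false false)⟩
  constructor
  · refine ⟨D, hD, 0, ?_⟩
    intro j hj
    rw [hf] at hj
    have h1 := SIn.one j hj
    constructor
    · exact h1.1
    · have := h1.2
      push_cast
      linarith
  · obtain ⟨u, hu, h1⟩ := fPoly_pow D
    rw [T6.bracket_orients D _ hD, hf] at h1
    intro h0
    have h2 : ev8 (O.fill w).std.bracket = 0 := by
      rw [← norm_eq_zero]
      exact h0
    have h3 := congrArg ev8 h1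
    rw [map_one, map_mul, h2, mul_zero] at h3
    exact one_ne_zero h3

/-- the members with small span and nonzero determinant -/
theorem many_of_small (O : Sites k) (hk : 0 < k) (hO : O.Connected) (s n : ℕ) 
    (hn : n + 1 ≤ pieces (flat O) ∨ 
      ∃ q : Fin k → ℤ, ∀ R : Finset (Fin k), R.card < n → det (O.fill (q + one R)) = 0) 
    (w : Fin k → ℤ) (hw : Small O s w) (hdet : det (O.fill w) ≠ 0) : 
    Many (3 * O.crossings.length + 6 * k + 2 * s) n w := by
  obtain ⟨q, hq⟩ : ∃ q : Fin k → ℤ, ∀ R : Finset (Fin k), R.card < n → det (O.fill (q + one R)) = 0 := by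
    rcases hn with hn | hn
    · exact ⟨0, fun R hR => det_zero O hk n hn R hR⟩
    · exact hn
  obtain ⟨lo, hlo⟩ := small_bracket O hk s w hw
  obtain ⟨S, S', h1, h2⟩ := codim O hk hO s n q hq w lo hlo hdet
  refine ⟨S, S', h1, fun i => ?_⟩
  have := h2 i
  unfold Close at this
  push_cast
  exact this

theorem count_of_many (X n : ℕ) (P : (Fin k → ℤ) → Prop) (hP : ∀ w, P w → Many X n w) : 
    (∀ (A : Fin k → Finset ℤ) (M : ℕ), (∀ e, M ≤ (A e).card) → ∀ B : Finset (Fin k → ℤ), 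
      (∀ w ∈ B, (∀ e, w e ∈ A e) ∧ P w) → M ^ n * B.card ≤ (3 ^ k * (X + 1)) ^ n * ∏ e, (A e).card) ∧ 
    ∀ N : ℕ, {w : Fin k → ℤ | (∀ e, |w e| ≤ N) ∧ P w}.ncard ≤ 
      (3 ^ k * (X + 1)) ^ n * (2 * N + 1) ^ (k - n) := by
  classical
  constructor
  · intro A M hM B hB
    refine (Nat.mul_le_mul_left _ (Finset.card_le_card ?_)).trans (count_many X n A M hM)
    intro w hw
    rw [Finset.mem_filter, Fintype.mem_piFinset]
    exact ⟨(hB w hw).1, hP w (hB w hw).2⟩
  · intro N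
    refine (Set.ncard_le_ncard (t := {w : Fin k → ℤ | (∀ e, |w e| ≤ N) ∧ Many X n w}) 
      (fun w hw => ⟨hw.1, hP w hw.2⟩) ?_).trans (count_cube X n N)
    have h1 : {w : Fin k → ℤ | (∀ e, |w e| ≤ N) ∧ Many X n w} ⊆ 
        ((Fintype.piFinset (fun _ : Fin k => Finset.Icc (-(N : ℤ)) N) : Finset (Fin k → ℤ)) : 
          Set (Fin k → ℤ)) := by
      intro w hw
      rw [Finset.mem_coe, Fintype.mem_piFinset]
      intro e
      rw [Finset.mem_Icc]
      exact abs_le.1 (hw.1 e)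
    exact (Finset.finite_toSet _).subset h1

/-- plane graphs -/
theorem many_graph (Γ : Ribbon k) (hk : 0 < k) (hΓ : Γ.Planar) (s : ℕ) (w : Fin k → ℤ) 
    (hw : SpanLE s (Γ.link w)) (hdet : det (Γ.link w) ≠ 0) : 
    Many (6 * k + 2 * s) (k + 1 - Γ.verts) w := by
  have n1 : Nonempty (Ribbon.Pt w) := ⟨⟨⟨0, hk⟩, 0, true⟩⟩
  obtain ⟨lo, hlo⟩ := T7.bracket_span s _ hw
  have hb := bracket_graph Γ hk w
  have hdet' : det ((graphSites Γ).fill w) ≠ 0 := by
    intro h0
    apply hdet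
    unfold det at h0 ⊢
    rw [← hb]
    exact h0
  rw [← hb] at hlo
  have hs := small_of_bracket (graphSites Γ) hk s w lo hlo
  have hv : k + 1 - Γ.verts + 1 ≤ pieces (flat (graphSites Γ)) := by
    have h1 := faces_le Γ
    have h2 := hΓ.2
    have h3 : 0 < Γ.faces := by
      unfold Ribbon.faces
      have : Nonempty (Quot (fun x y : Fin k × Bool => Pool.Agent.H891R2.MT.flip (Γ.rot x) = y)) :=
        ⟨Quot.mk _ (⟨0, hk⟩, true)⟩
      have : Finite (Quot (fun x y : Fin k × Bool => Pool.Agent.H891R2.MT.flip (Γ.rot x) = y)) := 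
        Quot.finite _
      exact Nat.card_pos
    omega
  have h4 := many_of_small (graphSites Γ) hk (graph_connected Γ hΓ.1) s _ (Or.inl hv) w hs hdet'
  have h5 : 3 * (graphSites Γ).crossings.length + 6 * k + 2 * s = 6 * k + 2 * s := by
    show 3 * 0 + 6 * k + 2 * s = 6 * k + 2 * s
    omega
  rw [h5] at h4
  exact h4

/-- closed braids -/
theorem many_braid {m : ℕ} (hk : 0 < k) (i : Fin k → ℕ) (hi : ∀ j, i j + 1 < m) 
    (hall : ∀ x, x + 1 < m → ∃ j, i j = x) (s : ℕ) (w : Fin k → ℤ) 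
    (hw : Small (braidSites m i hi) s w) (hdet : det ((braidSites m i hi).fill w) ≠ 0) : 
    Many (6 * k + 2 * s) (m - 1) w := by
  have hm : 1 < m := lt_of_le_of_lt (Nat.le_add_left 1 _) (hi ⟨0, hk⟩)
  have hv : m - 1 + 1 ≤ pieces (flat (braidSites m i hi)) := by
    have := braid_pieces i hi
    omega
  have h4 := many_of_small (braidSites m i hi) hk (braid_connected i hi hall) s _ (Or.inl hv) w hw hdet
  have h5 : 3 * (braidSites m i hi).crossings.length + 6 * k + 2 * s = 6 * k + 2 * s := by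
    show 3 * 0 + 6 * k + 2 * s = 6 * k + 2 * s
    omega
  rw [h5] at h4
  exact h4

end Pool.Agent.Y463.CD
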