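import Pool.Agent.Y463.CD.Struct

/-!
# The diagrams of a connected plane graph
-/

set_option autoImplicit false

namespace Pool.Agent.Y463.CD

open Finset LaurentPolynomial Module Pool.Agent.H891R2.Jones Pool.Agent.H891R2.MT Pool.Agent.H891R2.SI T4b
open T1b (prod_flatMap)

variable {k : ℕ}

/-- the bands of the ribbon graph `Γ`, as sites; marked points: the two sides of every dart -/
abbrev graphSites (Γ : Ribbon k) : Sites k where
  P := (Fin k × Bool) × Bool
  arcs := (List.finRange k).flatMap (fun e => 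
    [(((e, false), true), (Γ.rot (e, false), false)), (((e, true), true), (Γ.rot (e, true), false))])
  crossings := []
  corner := fun e t l => ((e, t), if t then !l else l)

/-- the colour of a side of a dart -/
def uc (w : Fin k → ℤ) {N : ℕ} (x : Ribbon.Pt w → Fin N) (p : (Fin k × Bool) × Bool) : Fin N :=
  if p.2 then x (Ribbon.left w p.1) else x (Ribbon.right w p.1)

theorem uc_iff (w : Fin k → ℤ) {N : ℕ} (x : Ribbon.Pt w → Fin N) (u : (Fin k × Bool) × Bool → Fin N) : 
    (∀ e : Fin k, u ((e, false), true) = x ⟨e, 0, true⟩ ∧ u ((e, false), false) = x ⟨e, 0, false⟩ ∧ 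
      u ((e, true), false) = x ⟨e, Fin.last _, true⟩ ∧ u ((e, true), true) = x ⟨e, Fin.last _, false⟩) ↔ 
    u = uc w x := by
  constructor
  · intro h
    funext p
    obtain ⟨⟨e, t⟩, l⟩ := p
    obtain ⟨h1, h2, h3, h4⟩ := h e
    cases t <;> cases l
    · exact h2
    · exact h1
    · exact h3
    · exact h4
  · rintro rfl e
    exact ⟨rfl, rfl, rfl, rfl⟩

theorem arcs_graph (Γ : Ribbon k) (w : Fin k → ℤ) {N : ℕ} (u : (Fin k × Bool) × Bool → Fin N)
    (x : Ribbon.Pt w → Fin N) :
    (((graphSites Γ).fill w).std.arcs.map (arcW (Sum.elim u x))).prod = 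
      ((graphSites Γ).arcs.map (arcW u)).prod * ind (u = uc w x) := by
  have h0 : ((graphSites Γ).fill w).std.arcs = (graphSites Γ).arcs.map (Prod.map .inl .inl) ++
    (List.finRange k).flatMap ((graphSites Γ).siteArcs w) := rfl
  rw [h0, List.map_append, List.prod_append, List.map_map]
  congr 1
  rw [arcs_prod]
  apply ind_congr
  rw [← uc_iff]
  constructor
  · intro h e
    have h1 : ∀ y ∈ (graphSites Γ).siteArcs w e, Sum.elim u x y.1 = Sum.elim u x y.2 := 
      fun y hy => h y (List.mem_flatMap.2 ⟨e, List.mem_finRange e, hy⟩)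
    refine ⟨h1 (.inl ((graphSites Γ).corner e false true), .inr ⟨e, 0, true⟩) ?_, 
      h1 (.inl ((graphSites Γ).corner e false false), .inr ⟨e, 0, false⟩) ?_, 
      h1 (.inl ((graphSites Γ).corner e true true), .inr ⟨e, Fin.last _, true⟩) ?_, 
      h1 (.inl ((graphSites Γ).corner e true false), .inr ⟨e, Fin.last _, false⟩) ?_⟩ <;>
    simp [Sites.siteArcs]
  · intro h y hy
    obtain ⟨e, _, he⟩ := List.mem_flatMap.1 hy
    obtain ⟨h1, h2, h3, h4⟩ := h e
    simp only [Sites.siteArcs, List.mem_cons, List.not_mem_nil, or_false] at he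
    rcases he with rfl | rfl | rfl | rfl
    · exact h1
    · exact h2
    · exact h3
    · exact h4

theorem arcs_link (Γ : Ribbon k) (w : Fin k → ℤ) {N : ℕ} (x : Ribbon.Pt w → Fin N) :
    ((graphSites Γ).arcs.map (arcW (uc w x))).prod = ((Γ.link w).std.arcs.map (arcW x)).prod := by
  have h1 : (graphSites Γ).arcs = (List.finRange k).flatMap (fun e => 
    [(((e, false), true), (Γ.rot (e, false), false)), (((e, true), true), (Γ.rot (e, true), false))]) := rfl
  have h2 : (Γ.link w).std.arcs = (List.finRange k).flatMap (fun e => 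
    [(Ribbon.left w (e, false), Ribbon.right w (Γ.rot (e, false))), 
      (Ribbon.left w (e, true), Ribbon.right w (Γ.rot (e, true)))]) := rfl
  rw [h1, h2, List.map_flatMap, List.map_flatMap]
  rfl

theorem crossings_link (Γ : Ribbon k) (w : Fin k → ℤ) (A : ℂ) {N : ℕ} 
    (u : (Fin k × Bool) × Bool → Fin N) (x : Ribbon.Pt w → Fin N) :
    (((graphSites Γ).fill w).std.crossings.map (crossW A (Sum.elim u x))).prod = 
      ((Γ.link w).std.crossings.map (crossW A x)).prod := by
  have h0 : ((graphSites Γ).fill w).std.crossings =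
    ((List.finRange k).flatMap (fun e => (List.finRange (w e).natAbs).map (fun j => 
      Prod.map Sum.inr (Prod.map Sum.inr (Prod.map Sum.inr Sum.inr))
        (Ribbon.twistCrossing w e j)))).map
        (fun x => (⟨x.1, x.2.1, x.2.2.1, x.2.2.2, true, true⟩ : 
          Crossing (((Fin k × Bool) × Bool) ⊕ Ribbon.Pt w))) := rfl
  have h1 : (Γ.link w).std.crossings = ((List.finRange k).flatMap (fun e => 
      (List.finRange (w e).natAbs).map (Ribbon.twistCrossing w e))).map
        (fun x => (⟨x.1, x.2.1, x.2.2.1, x.2.2.2, true, true⟩ : Crossing (Ribbon.Pt w))) := rfl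
  rw [h0, h1, List.map_flatMap, List.map_flatMap, List.map_flatMap, List.map_flatMap, prod_flatMap, 
    prod_flatMap]
  congr 1
  apply List.map_congr_left
  intro e _
  rw [List.map_map, List.map_map, List.map_map, List.map_map]
  rfl

theorem bracket_graph (Γ : Ribbon k) (hk : 0 < k) (w : Fin k → ℤ) : 
    ((graphSites Γ).fill w).std.bracket = (Γ.link w).std.bracket := by
  classical
  have : Nonempty ((graphSites Γ).P ⊕ Ribbon.Pt w) := ⟨.inl ((⟨0, hk⟩, true), true)⟩
  have : Nonempty (Ribbon.Pt w) := ⟨⟨⟨0, hk⟩, 0, true⟩⟩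
  apply T6.eq_of_ev
  intro N hN
  have hN0 : (N : ℂ) ≠ 0 := by
    exact_mod_cast (by omega : N ≠ 0)
  apply mul_left_cancel₀ hN0
  rw [ev_bracket, ev_bracket]
  rw [← (Equiv.sumArrowEquivProdArrow (graphSites Γ).P (Ribbon.Pt w) (Fin N)).symm.sum_comp,
    Fintype.sum_prod_type, Finset.sum_comm]
  refine Finset.sum_congr rfl fun x _ => ?_
  rw [Finset.sum_eq_single (uc w x)]
  · have e0 : (Equiv.sumArrowEquivProdArrow (graphSites Γ).P (Ribbon.Pt w) (Fin N)).symm (uc w x, x) =
      Sum.elim (uc w x) x := rfl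
    rw [e0]
    unfold WW
    rw [arcs_graph, crossings_link, arcs_link, ind_pos rfl, mul_one]
  · intro u _ hu
    have e0 : (Equiv.sumArrowEquivProdArrow (graphSites Γ).P (Ribbon.Pt w) (Fin N)).symm (u, x) =
      Sum.elim u x := rfl
    rw [e0]
    unfold WW
    rw [arcs_graph, ind_neg hu, mul_zero, zero_mul]
  · intro h
    exact absurd (Finset.mem_univ _) h

/-- the number of pieces is the number of faces -/
theorem faces_le (Γ : Ribbon k) : Γ.faces ≤ pieces (flat (graphSites Γ)) := by
  classical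
  let f : (Fin k × Bool) × Bool → Quot (fun x y => Pool.Agent.H891R2.MT.flip (Γ.rot x) = y) := 
    fun p => if p.2 then Quot.mk _ p.1 else Quot.mk _ (Pool.Agent.H891R2.MT.flip p.1)
  have hf : ∀ p q, Adj (flat (graphSites Γ)) p q → f p = f q := by
    intro p q h
    rcases h with h | ⟨x, hx, _⟩
    · change (p, q) ∈ (graphSites Γ).arcs ++ _ at h
      rw [List.mem_append] at h
      rcases h with h | h
      · obtain ⟨e, _, he⟩ := List.mem_flatMap.1 h
        simp only [List.mem_cons, List.not_mem_nil, or_false, Prod.mk.injEq] at he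
        rcases he with ⟨rfl, rfl⟩ | ⟨rfl, rfl⟩
        · exact Quot.sound rfl
        · exact Quot.sound rfl
      · obtain ⟨e, _, he⟩ := List.mem_flatMap.1 h
        rw [if_pos (Finset.mem_univ e)] at he
        simp only [List.mem_cons, List.not_mem_nil, or_false, Prod.mk.injEq] at he
        rcases he with ⟨rfl, rfl⟩ | ⟨rfl, rfl⟩
        · rfl
        · rfl
    · exact absurd hx List.not_mem_nil
  let F : Quot (Adj (flat (graphSites Γ))) → 
    Quot (fun x y => Pool.Agent.H891R2.MT.flip (Γ.rot x) = y) := Quot.lift f hf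
  have hF : Function.Surjective F := by
    intro x
    induction x using Quot.ind with
    | mk d => exact ⟨Quot.mk _ (d, true), rfl⟩
  have : Finite (graphSites Γ).P := inferInstance
  exact Nat.card_le_card_of_surjective F hF

theorem graph_connected (Γ : Ribbon k) (hΓ : Γ.comps Finset.univ = 1) : (graphSites Γ).Connected := by
  classical
  intro p q
  set r : (graphSites Γ).P → (graphSites Γ).P → Prop := fun p q => (p, q) ∈ (graphSites Γ).arcs ∨ 
    (∃ x ∈ (graphSites Γ).crossings, (p = x.1 ∨ p = x.2.1 ∨ p = x.2.2.1 ∨ p = x.2.2.2) ∧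
      (q = x.1 ∨ q = x.2.1 ∨ q = x.2.2.1 ∨ q = x.2.2.2)) ∨ 
    (∃ (e : Fin k) (t l t' l' : Bool), p = (graphSites Γ).corner e t l ∧ 
      q = (graphSites Γ).corner e t' l') with hr
  have hsite : ∀ (e : Fin k) (t l t' l' : Bool), Relation.EqvGen r ((e, t), l) ((e, t'), l') := by
    intro e t l t' l'
    refine Relation.EqvGen.rel _ _ (Or.inr (Or.inr ⟨e, t, if t then !l else l, t', if t' then !l' else l', ?_, ?_⟩))
    · show ((e, t), l) = ((e, t), if t then !(if t then !l else l) else (if t then !l else l))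
      cases t <;> cases l <;> rfl
    · show ((e, t'), l') = ((e, t'), if t' then !(if t' then !l' else l') else (if t' then !l' else l'))
      cases t' <;> cases l' <;> rfl
  have hrot : ∀ d : Fin k × Bool, Relation.EqvGen r (d, true) (Γ.rot d, false) := by
    intro d
    refine Relation.EqvGen.rel _ _ (Or.inl ?_)
    show _ ∈ (List.finRange k).flatMap _
    obtain ⟨e, t⟩ := d
    refine List.mem_flatMap.2 ⟨e, List.mem_finRange e, ?_⟩
    cases t <;> simp
  -- the map from the components
  let g : Fin k × Bool → Quot (Relation.EqvGen r) := fun d => Quot.mk _ (d, true)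
  have hg : ∀ x y : Fin k × Bool, (Γ.rot x = y ∨ (x.1 ∈ (Finset.univ : Finset (Fin k)) ∧ 
      y = Pool.Agent.H891R2.MT.flip x)) → g x = g y := by
    intro x y h
    apply Quot.sound
    rcases h with rfl | ⟨_, rfl⟩
    · exact (hrot x).trans _ _ _ (hsite _ _ _ _ _)
    · obtain ⟨e, t⟩ := x
      exact hsite e t true (!t) true
  have hsub : Subsingleton (Quot (fun x y : Fin k × Bool => Γ.rot x = y ∨ 
      (x.1 ∈ (Finset.univ : Finset (Fin k)) ∧ y = Pool.Agent.H891R2.MT.flip x))) := by
    have : Finite (Quot (fun x y : Fin k × Bool => Γ.rot x = y ∨ 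
      (x.1 ∈ (Finset.univ : Finset (Fin k)) ∧ y = Pool.Agent.H891R2.MT.flip x))) := Quot.finite _
    exact Finite.card_le_one_iff_subsingleton.1 (le_of_eq hΓ)
  have hall : ∀ d d' : Fin k × Bool, g d = g d' := by
    intro d d'
    have h1 : Quot.mk (fun x y : Fin k × Bool => Γ.rot x = y ∨ 
      (x.1 ∈ (Finset.univ : Finset (Fin k)) ∧ y = Pool.Agent.H891R2.MT.flip x)) d = Quot.mk _ d' := 
      Subsingleton.elim _ _
    exact congrArg (Quot.lift g hg) h1
  have heq : ∀ a b : (graphSites Γ).P, Quot.mk (Relation.EqvGen r) a = Quot.mk _ b → 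
      Relation.EqvGen r a b := by
    intro a b h
    have h1 := Quot.eqvGen_exact h
    clear h
    induction h1 with
    | rel _ _ h => exact h
    | refl => exact Relation.EqvGen.refl _
    | symm _ _ _ ih => exact Relation.EqvGen.symm _ _ ih
    | trans _ _ _ _ _ ih1 ih2 => exact Relation.EqvGen.trans _ _ _ ih1 ih2
  obtain ⟨⟨e, t⟩, l⟩ := p
  obtain ⟨⟨e', t'⟩, l'⟩ := q
  have h1 := heq _ _ (hall (e, t) (e', t'))
  exact ((hsite e t l t true).trans _ _ _ h1).trans _ _ _ (hsite e' t' true t' l')

/-- graphs without vertices of degree one or two -/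
theorem verts_le (Γ : Ribbon k) (h : ∀ d, Γ.rot d ≠ d ∧ Γ.rot (Γ.rot d) ≠ d) : 3 * Γ.verts ≤ 2 * k := by
  classical
  have hfin : Finite (Quot (fun x y : Fin k × Bool => Γ.rot x = y)) := Quot.finite _
  have := Fintype.ofFinite (Quot (fun x y : Fin k × Bool => Γ.rot x = y))
  let rep : Quot (fun x y : Fin k × Bool => Γ.rot x = y) → Fin k × Bool := Quot.out
  have hrep : ∀ c, Quot.mk _ (rep c) = c := fun c => Quot.out_eq c
  let f : Quot (fun x y : Fin k × Bool => Γ.rot x = y) × Fin 3 → Fin k × Bool := 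
    fun x => (Γ.rot ^ (x.2 : ℕ)) (rep x.1)
  have hcl : ∀ (n : ℕ) (d : Fin k × Bool), 
      Quot.mk (fun x y : Fin k × Bool => Γ.rot x = y) ((Γ.rot ^ n) d) = Quot.mk _ d := by
    intro n
    induction n with
    | zero => intro d; rfl
    | succ n ih =>
      intro d
      rw [pow_succ', Equiv.Perm.mul_apply]
      rw [← Quot.sound (r := fun x y : Fin k × Bool => Γ.rot x = y) (a := (Γ.rot ^ n) d) rfl]
      exact ih d
  have hinj : Function.Injective f := by
    rintro ⟨c, i⟩ ⟨c', j⟩ hij
    have h1 : c = c' := by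
      have h2 := congrArg (Quot.mk (fun x y : Fin k × Bool => Γ.rot x = y)) hij
      simp only [f] at h2
      rw [hcl, hcl, hrep, hrep] at h2
      exact h2
    subst h1
    have h3 : ∀ d : Fin k × Bool, d ≠ Γ.rot d ∧ d ≠ Γ.rot (Γ.rot d) ∧ Γ.rot d ≠ Γ.rot (Γ.rot d) := 
      fun d => ⟨(h d).1.symm, (h d).2.symm, (h (Γ.rot d)).1.symm⟩
    obtain ⟨a1, a2, a3⟩ := h3 (rep c)
    simp only [f] at hij
    fin_cases i <;> fin_cases j <;>
      simp only [pow_zero, pow_one, pow_two, Equiv.Perm.coe_one, id_eq, Equiv.Perm.coe_mul, 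
        Function.comp_apply, Fin.zero_eta, Fin.mk_one, Fin.isValue, Fin.val_zero, Fin.val_one, 
        Fin.reduceFinMk, Fin.val_two] at hij ⊢
    · exact absurd hij a1
    · exact absurd hij a2
    · exact absurd hij.symm a1
    · exact absurd hij a3
    · exact absurd hij.symm a2
    · exact absurd hij.symm a3
  have h1 := Fintype.card_le_of_injective f hinj
  rw [Fintype.card_prod, Fintype.card_prod, Fintype.card_fin, Fintype.card_fin, Fintype.card_bool] at h1
  unfold Ribbon.verts
  rw [Nat.card_eq_fintype_card]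
  omega

end Pool.Agent.Y463.CD
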