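import Pool.Agent.Y463.CD.Codim

/-!
# The number of pieces of the diagram without twists
-/

set_option autoImplicit false

namespace Pool.Agent.Y463.CD

open Finset LaurentPolynomial Module Pool.Agent.H891R2.Jones Pool.Agent.H891R2.MT Pool.Agent.H891R2.SI T4b

variable {k : ℕ}

/-- the hooks -/
def hooks (O : Sites k) (R : Finset (Fin k)) : List (O.P × O.P) := 
  ((List.finRange k).filter (fun e => e ∈ R)).map (fun e => (O.corner e false true, O.corner e false false))

theorem hooks_length (O : Sites k) (R : Finset (Fin k)) : (hooks O R).length = R.card := by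
  unfold hooks
  rw [List.length_map]
  have h1 : ((List.finRange k).filter (fun e => e ∈ R)).toFinset = R := by
    ext e
    simp
  rw [← h1, List.toFinset_card_of_nodup ((List.nodup_finRange k).filter _)]
  congr 1
  simp

theorem loops_ge (O : Sites k) (R : Finset (Fin k)) 
    (s : Fin (O.state Rᶜ).std.crossings.length → Bool) :
    pieces (flat O) ≤ (O.state Rᶜ).std.loops s + R.card := by
  classical
  have h1 := S2.card_list (hooks O R) (Adj (flat O))
  rw [hooks_length] at h1
  refine h1.trans (Nat.add_le_add_right ?_ _)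
  set r' : O.P → O.P → Prop := fun p q => Adj (flat O) p q ∨ (p, q) ∈ hooks O R with hr'
  -- the state is finer
  have hmk : ∀ {p q : O.P}, r' p q → Quot.mk r' p = Quot.mk r' q := fun h => Quot.sound h
  have hv1 : ∀ e, Quot.mk r' (O.corner e false true) = Quot.mk r' (O.corner e true true) := by
    intro e
    refine hmk (Or.inl (Or.inl ?_))
    show _ ∈ O.arcs ++ _
    refine List.mem_append_right _ (List.mem_flatMap.2 ⟨e, List.mem_finRange e, ?_⟩)
    rw [if_pos (Finset.mem_univ e)]
    simp
  have hv2 : ∀ e, Quot.mk r' (O.corner e false false) = Quot.mk r' (O.corner e true false) := by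
    intro e
    refine hmk (Or.inl (Or.inl ?_))
    show _ ∈ O.arcs ++ _
    refine List.mem_append_right _ (List.mem_flatMap.2 ⟨e, List.mem_finRange e, ?_⟩)
    rw [if_pos (Finset.mem_univ e)]
    simp
  have hh : ∀ e ∈ R, Quot.mk r' (O.corner e false true) = Quot.mk r' (O.corner e false false) := by
    intro e he
    refine hmk (Or.inr ?_)
    refine List.mem_map.2 ⟨e, ?_, rfl⟩
    rw [List.mem_filter]
    exact ⟨List.mem_finRange e, by simpa using he⟩
  have key : ∀ p q : O.P, (O.state Rᶜ).std.Joined s p q → Quot.mk r' p = Quot.mk r' q := by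
    intro p q h
    rcases h with h | ⟨i, h⟩
    · change (p, q) ∈ O.arcs ++ _ at h
      rw [List.mem_append] at h
      rcases h with h | h
      · refine hmk (Or.inl (Or.inl ?_))
        show _ ∈ O.arcs ++ _
        exact List.mem_append_left _ h
      · obtain ⟨e, _, he⟩ := List.mem_flatMap.1 h
        by_cases heR : e ∈ R
        · rw [if_neg (by simpa using heR)] at he
          simp only [List.mem_cons, List.not_mem_nil, or_false, Prod.mk.injEq] at he
          rcases he with ⟨rfl, rfl⟩ | ⟨rfl, rfl⟩
          · exact hh e heR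
          · rw [← hv1, ← hv2]
            exact hh e heR
        · rw [if_pos (by simpa using heR)] at he
          simp only [List.mem_cons, List.not_mem_nil, or_false, Prod.mk.injEq] at he
          rcases he with ⟨rfl, rfl⟩ | ⟨rfl, rfl⟩
          · exact hv1 e
          · exact hv2 e
    · -- a crossing
      have hmem := List.getElem_mem i.2
      obtain ⟨x, hx, hxi⟩ := List.mem_map.1 hmem
      have hxi' : (O.state Rᶜ).std.crossings[i] = ⟨x.1, x.2.1, x.2.2.1, x.2.2.2, true, true⟩ := hxi.symm
      have hadj : ∀ p q : O.P, (p = x.1 ∨ p = x.2.1 ∨ p = x.2.2.1 ∨ p = x.2.2.2) → 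
          (q = x.1 ∨ q = x.2.1 ∨ q = x.2.2.1 ∨ q = x.2.2.2) → Quot.mk r' p = Quot.mk r' q := 
        fun p q hp hq => hmk (Or.inl (Or.inr ⟨x, hx, hp, hq⟩))
      rw [hxi'] at h
      by_cases hs : s i = true
      · rw [if_pos hs] at h
        rcases h with ⟨rfl, rfl⟩ | ⟨rfl, rfl⟩
        · exact hadj _ _ (by tauto) (by tauto)
        · exact hadj _ _ (by tauto) (by tauto)
      · rw [if_neg hs] at h
        rcases h with ⟨rfl, rfl⟩ | ⟨rfl, rfl⟩
        · exact hadj _ _ (by tauto) (by tauto)
        · exact hadj _ _ (by tauto) (by tauto)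
  let f : Quot ((O.state Rᶜ).std.Joined s) → Quot r' := Quot.lift (fun p => Quot.mk r' p) key
  have hf : Function.Surjective f := by
    intro x
    induction x using Quot.ind with
    | mk p => exact ⟨Quot.mk _ p, rfl⟩
  unfold Diagram.loops
  exact Nat.card_le_card_of_surjective f hf

theorem ev8_state (O : Sites k) (R : Finset (Fin k)) (h : R.card + 1 < pieces (flat O)) : 
    ev8 (O.state Rᶜ).std.bracket = 0 := by
  unfold Diagram.bracket
  rw [map_sum]
  refine Finset.sum_eq_zero fun s _ => ?_
  have h1 := loops_ge O R s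
  have h2 : (O.state Rᶜ).std.loops s - 1 ≠ 0 := by omega
  rw [map_mul, map_pow, ev8_d, zero_pow h2, mul_zero]

/-- the determinants near `0` vanish -/
theorem det_zero (O : Sites k) (hk : 0 < k) (n : ℕ) (hn : n + 1 ≤ pieces (flat O)) (R : Finset (Fin k)) 
    (hR : R.card < n) : det (O.fill (0 + one R)) = 0 := by
  classical
  rw [det_eq O hk, norm_eq_zero]
  unfold dP
  refine Finset.sum_eq_zero fun R' _ => ?_
  by_cases hsub : R' ⊆ R
  · have h4 : R'.card ≤ R.card := Finset.card_le_card hsub
    unfold cf
    rw [ev8_state O R' (by omega), mul_zero, zero_mul]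
  · obtain ⟨e, he, heR⟩ := Finset.not_subset.1 hsub
    rw [Finset.prod_eq_zero he, mul_zero]
    unfold one
    simp only [Pi.add_apply, Pi.zero_apply, zero_add]
    rw [if_neg heR]
    simp

end Pool.Agent.Y463.CD
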