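import Pool.Agent.Y463.CD.Rigid

/-!
# The determinant of a twist family is a polynomial in the numbers of crossings
-/

set_option autoImplicit false

namespace Pool.Agent.Y463.CD

open Finset LaurentPolynomial Pool.Agent.H891R2.Jones Pool.Agent.H891R2.MT Pool.Agent.H891R2.SI T4b

variable {k : ℕ}

/-- evaluation at `A = e^{πi/4}` -/
noncomputable def ev8 : ℤ[T;T⁻¹] →+* ℂ := LaurentPolynomial.eval₂ (Int.castRingHom ℂ) zeta8

theorem ev8_T (n : ℤ) : ev8 (T n) = (zeta8 : ℂ) ^ n := by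
  unfold ev8
  rw [LaurentPolynomial.eval₂_T]
  simp

theorem zeta8_four : (zeta8 : ℂ) ^ 4 = -1 := by
  unfold zeta8
  rw [Units.val_mk0, ← Complex.exp_nat_mul]
  have : ((4 : ℕ) : ℂ) * (Real.pi / 4 * Complex.I) = Real.pi * Complex.I := by push_cast; ring
  rw [this, Complex.exp_pi_mul_I]

theorem zeta8_ne : (zeta8 : ℂ) ≠ 0 := zeta8.ne_zero

theorem ev8_d : ev8 (-T 2 - T (-2)) = 0 := by
  have e3 : ev8 (T 2) = - ev8 (T (-2)) := by
    have : (T 2 : ℤ[T;T⁻¹]) = T 4 * T (-2) := by rw [← T_add]; norm_num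
    have h5 : ev8 (T 4) = -1 := by rw [ev8_T]; exact_mod_cast zeta8_four
    rw [this, map_mul, h5]
    ring
  rw [map_sub, map_neg, e3]
  ring

theorem ev8_zf_one : ev8 (zf 1) = 1 := by
  show ev8 ((-1) ^ (1 : ℤ).natAbs * T (-4 * 1)) = 1
  rw [map_mul, map_pow, map_neg, map_one, ev8_T]
  have h1 : (zeta8 : ℂ) ^ (-4 * 1 : ℤ) = ((zeta8 : ℂ) ^ 4)⁻¹ := by
    rw [mul_one, zpow_neg]
    norm_cast
  rw [h1, zeta8_four]
  norm_num

theorem ev8_zf (n : ℤ) : ev8 (zf n) = 1 := by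
  induction n using Int.induction_on with
  | zero => rw [zf_zero, map_one]
  | succ n ih => rw [zf_add, map_mul, ih, ev8_zf_one, one_mul]
  | pred n ih =>
    have h : zf (-(n : ℤ)) = zf (-(n : ℤ) - 1) * zf 1 := by
      rw [← zf_add]
      congr 1
      ring
    rw [h, map_mul, ev8_zf_one, mul_one] at ih
    exact ih

theorem zf_one_sub : (-T 2 - T (-2) : ℤ[T;T⁻¹]) * T (-2) = zf 1 - 1 := by
  show _ = (-1) ^ (1 : ℤ).natAbs * T (-4 * 1) - 1
  have h1 : (T (-2) : ℤ[T;T⁻¹]) * T (-2) = T (-4) := by rw [← T_add]; norm_num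
  have h2 : (T 2 : ℤ[T;T⁻¹]) * T (-2) = 1 := by rw [← T_add]; norm_num
  have h3 : (-4 * 1 : ℤ) = -4 := by norm_num
  rw [h3]
  simp only [Int.natAbs_one, pow_one]
  linear_combination - h1 - h2

/-- the factor of a cut site, divided by the loop value -/
theorem exists_brk (n : ℤ) : ∃ g : ℤ[T;T⁻¹], (-T 2 - T (-2)) * g = zf n - 1 ∧ 
    ev8 g = (zeta8 : ℂ) ^ (-2 : ℤ) * n := by
  induction n using Int.induction_on with
  | zero => exact ⟨0, by rw [mul_zero, zf_zero, sub_self], by simp⟩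
  | succ n ih =>
    obtain ⟨g, h1, h2⟩ := ih
    refine ⟨g + zf n * T (-2), ?_, ?_⟩
    · have h3 := zf_one_sub
      rw [zf_add]
      linear_combination h1 + zf n * h3
    · rw [map_add, map_mul, h2, ev8_zf, one_mul, ev8_T]
      push_cast
      ring
  | pred n ih =>
    obtain ⟨g, h1, h2⟩ := ih
    have h4 : zf (-(n : ℤ)) = zf (-(n : ℤ) - 1) * zf 1 := by
      rw [← zf_add]
      congr 1
      ring
    refine ⟨g - zf (-(n : ℤ) - 1) * T (-2), ?_, ?_⟩
    · have h3 := zf_one_sub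
      linear_combination h1 - zf (-(n : ℤ) - 1) * h3 + h4
    · rw [map_sub, map_mul, h2, ev8_zf, one_mul, ev8_T]
      push_cast
      ring

/-- the factor of a cut site, divided by the loop value -/
noncomputable def brk (n : ℤ) : ℤ[T;T⁻¹] := (exists_brk n).choose

theorem brk_mul (n : ℤ) : (-T 2 - T (-2)) * brk n = zf n - 1 := (exists_brk n).choose_spec.1

theorem ev8_brk (n : ℤ) : ev8 (brk n) = (zeta8 : ℂ) ^ (-2 : ℤ) * n := (exists_brk n).choose_spec.2

/-- the expansion without denominators -/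
theorem expand (O : Sites k) (hk : 0 < k) (w : Fin k → ℤ) : 
    T (- ∑ e, w e) * (O.fill w).std.bracket = 
      ∑ R : Finset (Fin k), (∏ e ∈ R, brk (w e)) * (O.state Rᶜ).std.bracket := by
  have h0 := S3.step1 O hk w (by intro A hA N hN hNA; exact S1.S1 O w hA hN hNA)
  have e6 : ((-T 2 - T (-2)) ^ k : ℤ[T;T⁻¹]) ≠ 0 := pow_ne_zero _ delta_ne
  apply mul_left_cancel₀ e6
  have h1 : (-T 2 - T (-2)) ^ k * (T (- ∑ e, w e) * (O.fill w).std.bracket) = 
      T (- ∑ e, w e) * ((-T 2 - T (-2)) ^ k * (O.fill w).std.bracket) := by ring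
  rw [h1, h0, Finset.mul_sum, Finset.mul_sum]
  have h2 : ∀ S : Finset (Fin k), T (- ∑ e, w e) * ((∏ e ∈ S, T (w e)) *
        (∏ e ∈ Sᶜ, ((-1) ^ (w e).natAbs * T (-3 * w e) - T (w e))) *
        ((-T 2 - T (-2)) ^ S.card * (O.state S).std.bracket)) =
      (-T 2 - T (-2)) ^ k * ((∏ e ∈ Sᶜ, brk (w e)) * (O.state S).std.bracket) := by
    intro S
    have e1 : (T (- ∑ e, w e) : ℤ[T;T⁻¹]) * ∏ e ∈ S, T (w e) = ∏ e ∈ Sᶜ, T (- w e) := by
      rw [S3.T_prod, S3.T_prod (fun e => - w e), ← T_add, Finset.sum_neg_distrib,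
        ← Finset.sum_add_sum_compl S]
      congr 1
      ring
    have e2 : (∏ e ∈ Sᶜ, T (- w e)) *
        (∏ e ∈ Sᶜ, ((-1) ^ (w e).natAbs * T (-3 * w e) - T (w e))) =
        (-T 2 - T (-2)) ^ (Sᶜ).card * ∏ e ∈ Sᶜ, brk (w e) := by
      rw [← Finset.prod_mul_distrib, ← Finset.prod_const, ← Finset.prod_mul_distrib]
      refine Finset.prod_congr rfl fun e _ => ?_
      rw [brk_mul]
      show _ = (-1) ^ (w e).natAbs * T (-4 * w e) - 1
      have t1 : (T (- w e) : ℤ[T;T⁻¹]) * T (-3 * w e) = T (-4 * w e) := by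
        rw [← T_add]
        congr 1
        ring
      have t2 : (T (- w e) : ℤ[T;T⁻¹]) * T (w e) = 1 := by
        rw [← T_add, neg_add_cancel, T_zero]
      linear_combination ((-1) ^ (w e).natAbs : ℤ[T;T⁻¹]) * t1 - t2
    have e3 : ((-T 2 - T (-2)) ^ k : ℤ[T;T⁻¹]) = (-T 2 - T (-2)) ^ S.card * (-T 2 - T (-2)) ^ (Sᶜ).card := by
      rw [← pow_add]
      congr 1
      have := Finset.card_add_card_compl S
      rw [Fintype.card_fin] at this
      exact this.symm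
    calc _ = ((T (- ∑ e, w e) * ∏ e ∈ S, T (w e)) *
          (∏ e ∈ Sᶜ, ((-1) ^ (w e).natAbs * T (-3 * w e) - T (w e)))) *
          ((-T 2 - T (-2)) ^ S.card * (O.state S).std.bracket) := by ring
      _ = _ := by
        rw [e1, e2, e3]
        ring
  rw [Finset.sum_congr rfl fun S _ => h2 S]
  refine Finset.sum_nbij' (fun S => Sᶜ) (fun S => Sᶜ) (by simp) (by simp) (by simp) (by simp) ?_
  intro S _
  rw [compl_compl]

/-- the coefficients of the determinant polynomial -/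
noncomputable def cf (O : Sites k) (R : Finset (Fin k)) : ℂ := 
  (zeta8 : ℂ) ^ (-2 * (R.card : ℤ)) * ev8 (O.state Rᶜ).std.bracket

/-- the determinant polynomial -/
noncomputable def dP (O : Sites k) (x : Fin k → ℂ) : ℂ := ∑ R : Finset (Fin k), cf O R * ∏ e ∈ R, x e

theorem ev8_expand (O : Sites k) (hk : 0 < k) (w : Fin k → ℤ) : 
    ev8 (T (- ∑ e, w e) * (O.fill w).std.bracket) = dP O (fun e => (w e : ℂ)) := by
  rw [expand O hk, map_sum]
  unfold dP
  refine Finset.sum_congr rfl fun R _ => ?_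
  rw [map_mul, map_prod]
  have h1 : ∏ e ∈ R, ev8 (brk (w e)) = (zeta8 : ℂ) ^ (-2 * (R.card : ℤ)) * ∏ e ∈ R, (w e : ℂ) := by
    rw [Finset.prod_congr rfl fun e _ => ev8_brk (w e), Finset.prod_mul_distrib, Finset.prod_const]
    congr 1
    rw [← zpow_natCast, ← zpow_mul]
  rw [h1]
  unfold cf
  ring

theorem det_eq (O : Sites k) (hk : 0 < k) (w : Fin k → ℤ) : 
    det (O.fill w) = ‖dP O (fun e => (w e : ℂ))‖ := by
  rw [← ev8_expand O hk, map_mul, norm_mul, ev8_T, norm_zpow]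
  have h1 : ‖(zeta8 : ℂ)‖ = 1 := by
    have h2 : ‖(zeta8 : ℂ)‖ ^ 4 = 1 := by
      rw [← norm_pow, zeta8_four, norm_neg, norm_one]
    exact (pow_eq_one_iff_of_nonneg (norm_nonneg _) (by norm_num)).1 h2
  rw [h1, one_zpow, one_mul]
  rfl

theorem det_ne_iff (O : Sites k) (hk : 0 < k) (w : Fin k → ℤ) : 
    det (O.fill w) ≠ 0 ↔ dP O (fun e => (w e : ℂ)) ≠ 0 := by
  rw [det_eq O hk, norm_ne_zero_iff]

end Pool.Agent.Y463.CD
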