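import Pool.Agent.Y463.CD.Cluster
import Pool.Agent.Y463.CD.Defs
import Pool.Agent.H953R3.JT.Site

/-!
# Rigidity: twist families whose Jones polynomial has small span
-/

set_option autoImplicit false

namespace Pool.Agent.Y463.CD

open Finset LaurentPolynomial Pool.Agent.H891R2.Jones Pool.Agent.H891R2.MT Pool.Agent.H891R2.SI T4b
open Pool.Agent.H891R2.ZO (IsPow)
open Pool.Agent.H832R3.TW (FSpanLE)

variable {k : ℕ}

theorem delta_ne : (-T 2 - T (-2) : ℤ[T;T⁻¹]) ≠ 0 := by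
  intro h
  have h1 := congrArg (fun f : ℤ[T;T⁻¹] => f.coeff 2) h
  have h2 := (Pool.Agent.H953R3.JT.Top.delta).1
  simp only [h2] at h1
  norm_num at h1

/-- **rigidity** for the brackets -/
theorem rigid (O : Sites k) (hk : 0 < k) (hO : O.Connected) (s : ℕ) (w y : Fin k → ℤ) (lo : ℤ)
    (h : SIn (O.fill w).std.bracket lo (lo + 4 * s)) 
    (hy : ∀ S S' : Finset (Fin k), Close O s w S S' → nS y S = nS y S') :
    ∃ y0 : ℤ, T (- ∑ e, (w + y) e) * (O.fill (w + y)).std.bracket = 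
      zf y0 * (T (- ∑ e, w e) * (O.fill w).std.bracket) := by
  classical
  have hG := ((SIn_d.pow k).mul (SIn.T (- ∑ e, w e))).mul h
  rw [Pool.Agent.H891R2.SI.S3 O hk w] at hG
  obtain ⟨y0, h0⟩ := cluster (Pool.Agent.H891R2.SI.Zp O) (3 * O.crossings.length + 4 * k) 
    (3 * O.crossings.length + 6 * k + 2 * s) (4 * k + 4 * s) (fun R => S4 O hO R) (by positivity) 
    (by positivity) (by linarith) (fun R => nS w R) (fun R => nS y R) _ 
    (Finset.univ : Finset (Finset (Fin k))) le_rfl _ (hG.mono le_rfl (by linarith)) 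
    (fun S _ S' _ hc => hy S S' hc)
  refine ⟨y0, ?_⟩
  have e1 := Pool.Agent.H891R2.SI.S3 O hk w
  have e2 := Pool.Agent.H891R2.SI.S3 O hk (w + y)
  have e3 : ∀ R : Finset (Fin k), nS (w + y) R = nS w R + nS y R := by
    intro R
    unfold nS
    rw [← Finset.sum_add_distrib]
    rfl
  have e4 : ∑ R : Finset (Fin k), ((-1) ^ (nS (w + y) R).natAbs * T (-4 * nS (w + y) R)) * 
      Pool.Agent.H891R2.SI.Zp O R = ∑ R : Finset (Fin k), zf (nS w R + nS y R) * 
      Pool.Agent.H891R2.SI.Zp O R := Finset.sum_congr rfl fun R _ => by rw [e3]; rfl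
  rw [e4, h0] at e2
  have e5 : ∑ R : Finset (Fin k), zf (nS w R) * Pool.Agent.H891R2.SI.Zp O R = 
      (-T 2 - T (-2)) ^ k * T (- ∑ e, w e) * (O.fill w).std.bracket := e1.symm
  rw [e5] at e2
  have e6 : ((-T 2 - T (-2)) ^ k : ℤ[T;T⁻¹]) ≠ 0 := pow_ne_zero _ delta_ne
  apply mul_left_cancel₀ e6
  linear_combination e2

theorem zf_pow (n : ℤ) : IsPow (zf n) := by
  have h1 : IsPow ((-1 : ℤ[T;T⁻¹]) ^ n.natAbs) := IsPow.sgn _
  exact h1.mul (IsPow.T _)

theorem fPoly_pow {P : Type} (D : Diagram P) [DecidableEq P] : 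
    ∃ u, IsPow u ∧ D.fPoly = u * D.bracket := by
  refine ⟨(if Even D.writhe then 1 else -1) * T (-3 * D.writhe), ?_, ?_⟩
  · split_ifs
    · rw [one_mul]; exact IsPow.T _
    · rw [neg_one_mul]; exact ⟨_, Or.inr rfl⟩
  · unfold Diagram.fPoly
    rfl

end Pool.Agent.Y463.CD
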