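import Pool.Agent.Y463.CD.Count
import Pool.Agent.Y463.CD.Pieces

/-!
# The structure of the set of members with a Jones polynomial of small span
-/

set_option autoImplicit false

namespace Pool.Agent.Y463.CD

open Finset LaurentPolynomial Module Pool.Agent.H891R2.Jones Pool.Agent.H891R2.MT Pool.Agent.H891R2.SI T4b
open Pool.Agent.H891R2.ZO (IsPow)
open Pool.Agent.H832R3.TW (FSpanLE)

variable {k : ℕ}

theorem nS_sub (w w' : Fin k → ℤ) (R : Finset (Fin k)) : nS (w' - w) R = nS w' R - nS w R := by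
  unfold nS
  rw [← Finset.sum_sub_distrib]
  rfl

theorem coset_iff (O : Sites k) (s : ℕ) (w w' : Fin k → ℤ) : w' ∈ Coset O s w ↔ 
    (fun e => ((w' - w) e : ℚ)) ∈ orth (RelS O s w) := by
  rw [orth_iff]
  constructor
  · intro h S S' hc
    have := h S S' hc
    rw [nS_sub, nS_sub]
    omega
  · intro h S S' hc
    have := h S S' hc
    rw [nS_sub, nS_sub] at this
    omega

theorem orients_std {P : Type} (U : UDiagram P) : Orients U.std U := by
  constructor
  · show List.Forall₂ _ U.arcs U.arcs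
    rw [List.forall₂_same]
    intro x _
    exact Or.inl rfl
  · show (U.crossings.map _).map _ = U.crossings
    rw [List.map_map]
    exact List.map_id _

theorem small_bracket (O : Sites k) (hk : 0 < k) (s : ℕ) (w : Fin k → ℤ) (h : Small O s w) : 
    ∃ lo : ℤ, SIn (O.fill w).std.bracket lo (lo + 4 * s) := by
  obtain ⟨D, hD, hs⟩ := h
  have : Nonempty (O.P ⊕ Ribbon.Pt w) := ⟨.inl (O.corner ⟨0, hk⟩ false false)⟩
  exact Pool.Agent.H953R3.JT.span_bracket' s _ D hD hs

theorem small_of_bracket (O : Sites k) (hk : 0 < k) (s : ℕ) (w : Fin k → ℤ) (lo : ℤ)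
    (h : SIn (O.fill w).std.bracket lo (lo + 4 * s)) : Small O s w := by
  have : Nonempty (O.P ⊕ Ribbon.Pt w) := ⟨.inl (O.corner ⟨0, hk⟩ false false)⟩
  exact ⟨_, orients_std _, Pool.Agent.H953R3.JT.fspan_of_bracket s _ _ (orients_std _) lo h⟩

/-- **rigidity**: brackets -/
theorem rigid_coset (O : Sites k) (hk : 0 < k) (hO : O.Connected) (s : ℕ) (w w' : Fin k → ℤ) 
    (h : Small O s w) (hw : w' ∈ Coset O s w) : 
    ∃ u, IsPow u ∧ (O.fill w').std.bracket = u * (O.fill w).std.bracket := by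
  obtain ⟨lo, hlo⟩ := small_bracket O hk s w h
  rw [coset_iff, orth_iff] at hw
  obtain ⟨y0, h0⟩ := rigid O hk hO s w (w' - w) lo hlo hw
  rw [add_sub_cancel] at h0
  refine ⟨T (∑ e, w' e) * (zf y0 * T (- ∑ e, w e)), (IsPow.T _).mul ((zf_pow _).mul (IsPow.T _)), ?_⟩
  have h1 : (T (∑ e, w' e) * T (- ∑ e, w' e) : ℤ[T;T⁻¹]) = 1 := by
    rw [← T_add, add_neg_cancel, T_zero]
  calc (O.fill w').std.bracket = (T (∑ e, w' e) * T (- ∑ e, w' e)) * (O.fill w').std.bracket := by
        rw [h1, one_mul]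
    _ = T (∑ e, w' e) * (T (- ∑ e, w' e) * (O.fill w').std.bracket) := by ring
    _ = _ := by rw [h0]; ring

/-- **rigidity**: normalised brackets -/
theorem rigid_fPoly (O : Sites k) (hk : 0 < k) (hO : O.Connected) (s : ℕ) (w w' : Fin k → ℤ) 
    (h : Small O s w) (hw : w' ∈ Coset O s w) (D : Diagram (O.P ⊕ Ribbon.Pt w)) 
    (hD : Orients D (O.fill w)) (D' : Diagram (O.P ⊕ Ribbon.Pt w')) (hD' : Orients D' (O.fill w')) : 
    ∃ u, IsPow u ∧ D'.fPoly = u * D.fPoly := by
  have n1 : Nonempty (O.P ⊕ Ribbon.Pt w) := ⟨.inl (O.corner ⟨0, hk⟩ false false)⟩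
  have n2 : Nonempty (O.P ⊕ Ribbon.Pt w') := ⟨.inl (O.corner ⟨0, hk⟩ false false)⟩
  obtain ⟨u, hu, h1⟩ := rigid_coset O hk hO s w w' h hw
  obtain ⟨u1, hu1, h2⟩ := fPoly_pow D
  obtain ⟨u2, hu2, h3⟩ := fPoly_pow D'
  obtain ⟨u3, hu3, h4⟩ := hu1.inv
  refine ⟨u2 * (u * u3), hu2.mul (hu.mul hu3), ?_⟩
  rw [h3, h2, T6.bracket_orients D' _ hD', h1, T6.bracket_orients D _ hD]
  calc u2 * (u * (O.fill w).std.bracket) = u2 * u * ((u3 * u1) * (O.fill w).std.bracket) := by
        rw [h4]; ring
    _ = _ := by ring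

theorem small_coset (O : Sites k) (hk : 0 < k) (hO : O.Connected) (s : ℕ) (w w' : Fin k → ℤ) 
    (h : Small O s w) (hw : w' ∈ Coset O s w) : Small O s w' := by
  obtain ⟨u, hu, h1⟩ := rigid_coset O hk hO s w w' h hw
  obtain ⟨lo, hlo⟩ := small_bracket O hk s w h
  obtain ⟨m, hm⟩ := hu.SIn
  refine small_of_bracket O hk s w' (m + lo) ?_
  rw [h1]
  exact (hm.mul hlo).mono le_rfl (by linarith)

/-! ### lines -/

theorem big_or_line (O : Sites k) (s : ℕ) (w : Fin k → ℤ) : 
    (∀ e, |w e| ≤ k * k.factorial * (3 * O.crossings.length + 6 * k + 2 * s)) ∨ 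
    ∃ y : Fin k → ℤ, y ≠ 0 ∧ ∀ t : ℤ, w + t • y ∈ Coset O s w := by
  classical
  by_cases hc : finrank ℚ (orth (RelS O s w)) + k ≤ k
  · left
    obtain ⟨f, hf, hfm⟩ := exists_indep _ k hc
    choose S S' h1 h2 using hfm
    set M : Matrix (Fin k) (Fin k) ℤ := Matrix.of (fun i => rz (S i) (S' i)) with hM
    have hdet : M.det ≠ 0 := by
      intro h0
      have h3 : (M.map (Int.castRingHom ℚ)).det = 0 := by
        have h9 := RingHom.map_det (Int.castRingHom ℚ) M
        rw [h0, map_zero] at h9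
        exact h9.symm
      have h4 : LinearIndependent ℚ (M.map (Int.castRingHom ℚ)).row := by
        have : (M.map (Int.castRingHom ℚ)).row = f := by
          funext i
          rw [h2 i, ← rz_cast]
          rfl
        rw [this]
        exact hf
      have h5 := Matrix.linearIndependent_rows_iff_isUnit.1 h4
      rw [Matrix.isUnit_iff_isUnit_det, h3] at h5
      exact not_isUnit_zero h5
    have hMw : ∀ i, (M.mulVec w) i = nS w (S i) - nS w (S' i) := fun i => rz_sum (S i) (S' i) w
    have hadj : ∀ i j, |M.adjugate i j| ≤ k.factorial := by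
      intro i j
      rw [Matrix.adjugate_apply]
      have h3 := Matrix.det_le (abv := (AbsoluteValue.abs : AbsoluteValue ℤ ℤ)) 
        (A := M.updateRow j (Pi.single i 1)) (x := 1) (by
          intro a b
          show |_| ≤ (1 : ℤ)
          by_cases haj : a = j
          · subst haj
            rw [Matrix.updateRow_self]
            by_cases hb : b = i
            · subst hb; simp
            · rw [Pi.single_eq_of_ne hb]; simp
          · rw [Matrix.updateRow_ne haj]
            show |rz (S a) (S' a) b| ≤ 1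
            unfold rz one
            by_cases h1 : b ∈ S a <;> by_cases h2 : b ∈ S' a <;> simp [h1, h2])
      rw [one_pow, Fintype.card_fin] at h3
      have h4 : (AbsoluteValue.abs : AbsoluteValue ℤ ℤ) (M.updateRow j (Pi.single i 1)).det = 
        |(M.updateRow j (Pi.single i 1)).det| := rfl
      rw [h4] at h3
      simpa using h3
    intro e
    have h3 : M.det * w e = ∑ i, M.adjugate e i * (M.mulVec w) i := by
      have h4 : (M.adjugate.mulVec (M.mulVec w)) e = M.det * w e := by
        rw [Matrix.mulVec_mulVec, Matrix.adjugate_mul, Matrix.smul_mulVec, Matrix.one_mulVec]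
        rfl
      rw [← h4]
      rfl
    have hX0 : (0 : ℤ) ≤ 3 * O.crossings.length + 6 * k + 2 * s := by positivity
    have h4 : |M.det * w e| ≤ ∑ i : Fin k, (k.factorial : ℤ) * (3 * O.crossings.length + 6 * k + 2 * s) := by
      rw [h3]
      refine (Finset.abs_sum_le_sum_abs _ _).trans (Finset.sum_le_sum fun i _ => ?_)
      rw [abs_mul]
      refine mul_le_mul (hadj e i) ?_ (abs_nonneg _) (by positivity)
      rw [hMw]
      have := h1 i
      unfold Close at this
      have h5 := abs_nonneg (nS w (S i) - nS w (S' i))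
      linarith
    have h5 : |w e| ≤ |M.det * w e| := by
      rw [abs_mul]
      have h6 : 1 ≤ |M.det| := Int.one_le_abs hdet
      nlinarith [abs_nonneg (w e)]
    refine h5.trans (h4.trans (le_of_eq ?_))
    rw [Finset.sum_const, Finset.card_univ, Fintype.card_fin, nsmul_eq_mul]
    ring
  · right
    have hpos : 0 < finrank ℚ (orth (RelS O s w)) := by omega
    obtain ⟨⟨y, hy⟩, hy0⟩ := Module.finrank_pos_iff_exists_ne_zero.1 hpos
    obtain ⟨N, z, hN, hz⟩ := exists_den y
    refine ⟨z, ?_, ?_⟩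
    · intro h0
      apply hy0
      apply Subtype.ext
      funext e
      have h1 := hz e
      rw [h0] at h1
      simp only [Pi.zero_apply, Int.cast_zero, mul_eq_zero] at h1
      rcases h1 with h1 | h1
      · exfalso
        have : N = 0 := by exact_mod_cast h1
        omega
      · exact h1
    · intro t
      rw [coset_iff]
      have : (fun e => ((w + t • z - w) e : ℚ)) = ((t : ℚ) * N) • y := by
        funext e
        simp only [add_sub_cancel_left, Pi.smul_apply, smul_eq_mul]
        push_cast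
        rw [mul_assoc, hz]
      rw [this]
      exact (orth (RelS O s w)).smul_mem _ hy

/-! ### finitely many cosets -/

/-- `c` describes the coset of `w` -/
def Code (O : Sites k) (s : ℕ) (w : Fin k → ℤ) (c : Fin k → Option ((Fin k → ℤ) × ℤ)) : Prop :=
  (∀ i ρ b, c i = some (ρ, b) → ∑ e, ρ e * w e = b) ∧ 
    orth {ρ | ∃ i ρ' b, c i = some (ρ', b) ∧ ρ = fun e => (ρ' e : ℚ)} ≤ orth (RelS O s w)

theorem Code.coset (O : Sites k) (s : ℕ) (w w' : Fin k → ℤ) (c : Fin k → Option ((Fin k → ℤ) × ℤ))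
    (h : Code O s w c) (h' : Code O s w' c) : w' ∈ Coset O s w := by
  rw [coset_iff]
  apply h.2
  rintro _ ⟨i, ρ, b, hc, rfl⟩
  have h1 := h.1 i ρ b hc
  have h2 := h'.1 i ρ b hc
  have h3 : ∑ e, ρ e * (w' - w) e = 0 := by
    simp only [Pi.sub_apply, mul_sub, Finset.sum_sub_distrib]
    rw [h1, h2, sub_self]
  simp only
  exact_mod_cast h3

/-- the possible codes -/
noncomputable def CodeSet (O : Sites k) (s : ℕ) : Finset (Fin k → Option ((Fin k → ℤ) × ℤ)) :=
  Fintype.piFinset (fun _ => Finset.insertNone 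
    (Fintype.piFinset (fun _ => ({-1, 0, 1} : Finset ℤ)) ×ˢ 
      Finset.Icc (-(((3 * O.crossings.length + 6 * k + 2 * s) / 2 : ℕ) : ℤ)) 
        (((3 * O.crossings.length + 6 * k + 2 * s) / 2 : ℕ) : ℤ)))

theorem card_CodeSet (O : Sites k) (s : ℕ) : 
    (CodeSet O s).card ≤ (3 ^ k * (3 * O.crossings.length + 6 * k + 2 * s + 1) + 1) ^ k := by
  unfold CodeSet
  rw [Fintype.card_piFinset, Finset.prod_const, Finset.card_univ, Fintype.card_fin, 
    Finset.card_insertNone, Finset.card_product, Fintype.card_piFinset]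
  have h1 : ∏ _i : Fin k, ({-1, 0, 1} : Finset ℤ).card = 3 ^ k := by simp
  rw [h1, Int.card_Icc]
  refine Nat.pow_le_pow_left (Nat.add_le_add_right (Nat.mul_le_mul_left _ ?_) _) _
  omega

theorem exists_code (O : Sites k) (s : ℕ) (w : Fin k → ℤ) : ∃ c ∈ CodeSet O s, Code O s w c := by
  classical
  obtain ⟨n, hn⟩ : ∃ n, finrank ℚ (orth (RelS O s w)) + n = k := by
    have h1 := Submodule.finrank_le (orth (RelS O s w))
    rw [Module.finrank_fintype_fun_eq_card, Fintype.card_fin] at h1
    exact ⟨k - finrank ℚ (orth (RelS O s w)), by omega⟩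
  obtain ⟨f, hf, hfm⟩ := exists_indep _ n hn.le
  choose S S' h1 h2 using hfm
  have h3 := finrank_orth n f hf
  have hle : orth (RelS O s w) ≤ orth (Set.range f) := by
    intro y hy ρ hρ
    obtain ⟨i, rfl⟩ := hρ
    exact hy _ ⟨S i, S' i, h1 i, h2 i⟩
  have heq : orth (RelS O s w) = orth (Set.range f) := 
    Submodule.eq_of_le_of_finrank_eq hle (by omega)
  have hnk : n ≤ k := by omega
  refine ⟨fun i => if h : (i : ℕ) < n then some (rz (S ⟨i, h⟩) (S' ⟨i, h⟩), 
    nS w (S ⟨i, h⟩) - nS w (S' ⟨i, h⟩)) else none, ?_, ?_, ?_⟩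
  · unfold CodeSet
    rw [Fintype.mem_piFinset]
    intro i
    by_cases h : (i : ℕ) < n
    · rw [dif_pos h, Finset.some_mem_insertNone, Finset.mem_product]
      constructor
      · rw [Fintype.mem_piFinset]
        intro e
        show rz _ _ e ∈ _
        unfold rz one
        by_cases h1 : e ∈ S ⟨i, h⟩ <;> by_cases h2 : e ∈ S' ⟨i, h⟩ <;> simp [h1, h2]
      · have h4 := h1 ⟨i, h⟩
        unfold Close at h4
        rw [Finset.mem_Icc]
        exact abs_le.1 (show |nS w (S ⟨i, h⟩) - nS w (S' ⟨i, h⟩)| ≤ 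
          (((3 * O.crossings.length + 6 * k + 2 * s) / 2 : ℕ) : ℤ) by omega)
    · rw [dif_neg h]
      exact Finset.none_mem_insertNone
  · intro i ρ b hc
    dsimp only at hc
    by_cases h : (i : ℕ) < n
    · rw [dif_pos h] at hc
      have h4 := Option.some.inj hc
      rw [Prod.mk.injEq] at h4
      rw [← h4.1, ← h4.2]
      exact rz_sum _ _ _
    · rw [dif_neg h] at hc
      exact absurd hc (by simp)
  · rw [heq]
    intro y hy
    rintro _ ⟨i, rfl⟩
    apply hy
    refine ⟨⟨i, by omega⟩, rz (S i) (S' i), nS w (S i) - nS w (S' i), ?_, ?_⟩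
    · dsimp only
      rw [dif_pos i.2]
    · rw [h2 i, ← rz_cast]

/-- **structure**: finitely many cosets -/
theorem structure_thm (O : Sites k) (hk : 0 < k) (hO : O.Connected) (s : ℕ) : 
    ∃ W : Finset (Fin k → ℤ), 
      W.card ≤ (3 ^ k * (3 * O.crossings.length + 6 * k + 2 * s + 1) + 1) ^ k ∧ 
      (∀ w ∈ W, Small O s w) ∧ ∀ w, Small O s w ↔ ∃ w' ∈ W, w ∈ Coset O s w' := by
  classical
  set C' := (CodeSet O s).filter (fun c => ∃ w, Small O s w ∧ Code O s w c) with hC'
  have hch : ∀ c : Fin k → Option ((Fin k → ℤ) × ℤ), ∃ w : Fin k → ℤ, 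
      c ∈ C' → Small O s w ∧ Code O s w c := by
    intro c
    by_cases hc : c ∈ C'
    · obtain ⟨w, hw⟩ := (Finset.mem_filter.1 hc).2
      exact ⟨w, fun _ => hw⟩
    · exact ⟨0, fun h => absurd h hc⟩
  choose g hg using hch
  refine ⟨C'.image g, ?_, ?_, ?_⟩
  · exact Finset.card_image_le.trans ((Finset.card_filter_le _ _).trans (card_CodeSet O s))
  · intro w hw
    obtain ⟨c, hc, rfl⟩ := Finset.mem_image.1 hw
    exact (hg c hc).1
  · intro w
    constructor
    · intro h
      obtain ⟨c, hc, hcw⟩ := exists_code O s w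
      have hcC : c ∈ C' := Finset.mem_filter.2 ⟨hc, w, h, hcw⟩
      exact ⟨g c, Finset.mem_image.2 ⟨c, hcC, rfl⟩, Code.coset O s (g c) w c (hg c hcC).2 hcw⟩
    · rintro ⟨w', hw', hw⟩
      obtain ⟨c, hc, rfl⟩ := Finset.mem_image.1 hw'
      exact small_coset O hk hO s _ w (hg c hc).1 hw

end Pool.Agent.Y463.CD
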